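import Pool.Agent.Helper31.RG.Core

/-!
# Range concatenation grammars: basic lemmas
-/

namespace Pool.Agent.Helper31.RG

open Pool.Agent.Helper65.LinSpace Pool.Agent.Helper78 Pool.Agent.Helper78.Mpc
  Pool.Agent.Helper78.Xor Pool.Agent.Helper95.BG Finset

theorem ifz_zero (x y : ℕ) : ifz 0 x y = x := rfl

theorem ifz_pos {c : ℕ} (h : c ≠ 0) (x y : ℕ) : ifz c x y = y := if_neg h

theorem ifz_lt01 (a b x y : ℕ) : ifz (lt01 a b) x y = if a < b then y else x := by
  unfold ifz lt01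
  split_ifs <;> simp_all

theorem ifz_congr {c x x' y y' : ℕ} (h : c = 0 → x = x') (h' : c ≠ 0 → y = y') :
    ifz c x y = ifz c x' y' := by
  unfold ifz
  split_ifs with h1
  · exact h h1
  · exact h' h1

theorem ifz_lt {c x y b : ℕ} (h : x < b) (h' : y < b) : ifz c x y < b := by
  unfold ifz
  split_ifs <;> assumption

theorem wt_pos (k n : ℕ) : 0 < wt k n := by
  unfold wt ifz
  split_ifs with h
  · omega
  · have : 0 < (k + 1) * n := by positivity
    omega

theorem wt_mono (k : ℕ) {m n : ℕ} (h : m ≤ n) : wt k m ≤ wt k n := by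
  rcases Nat.lt_or_ge m n with h1 | h1
  · unfold wt
    have h2 : (k + 1) * (m + 1) ≤ (k + 1) * n := Nat.mul_le_mul_left _ h1
    rw [Nat.mul_succ] at h2
    have h3 : ifz m 1 0 ≤ 1 := by unfold ifz; split_ifs <;> omega
    omega
  · rw [le_antisymm h h1]

theorem lt01_eq_zero (a b : ℕ) : lt01 a b = 0 ↔ b ≤ a := by
  unfold lt01
  by_cases h : a < b
  · rw [if_pos h]
    exact iff_of_false one_ne_zero (not_le.2 h)
  · rw [if_neg h]
    exact iff_of_true rfl (not_lt.1 h)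

theorem pt_lt {N : ℕ} (hN : 0 < N) (k e c d : ℕ) : pt k N e c d < N :=
  ifz_lt (dig_lt hN _ _) (dig_lt hN _ _)

theorem pt_left {k d : ℕ} (h : d < 2 * k) (N e c : ℕ) : pt k N e c d = dig N e d := by
  unfold pt
  rw [ifz_lt01, if_pos h]

theorem pt_right {k d : ℕ} (h : 2 * k ≤ d) (N e c : ℕ) :
    pt k N e c d = dig N c (d - 2 * k) := by
  unfold pt
  rw [ifz_lt01, if_neg (by omega)]

theorem dig_yN {N : ℕ} (hN : 0 < N) {k t : ℕ} (ht : t < 2 * k) (r e c π : ℕ) :
    dig N (yN k r N e c π) t = pt k N e c (sel k r π t) :=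
  dig_tab (fun _ _ => pt_lt hN _ _ _ _) ht

theorem yN_lt {N : ℕ} (hN : 0 < N) (k r e c π : ℕ) : yN k r N e c π < N ^ (2 * k) :=
  tab_lt fun _ _ => pt_lt hN _ _ _ _

theorem injB_eq_zero (k r π : ℕ) : injB k r π = 0 ↔ ∀ i < k, ∀ j < k,
    dig (k * (r + 1) + 1) π i < k * (r + 1) →
      dig (k * (r + 1) + 1) π i = dig (k * (r + 1) + 1) π j → i = j := by
  unfold injB
  constructor
  · intro h
    have key : ∀ i < k, ∀ j < i, dig (k * (r + 1) + 1) π i < k * (r + 1) →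
        dig (k * (r + 1) + 1) π i ≠ dig (k * (r + 1) + 1) π j := by
      intro i hi j hj h1 h2
      have h3 := (sum_eq_zero_iff.1 h) i (mem_range.2 hi)
      have h4 := (sum_eq_zero_iff.1 h3) j (mem_range.2 hj)
      unfold lt01 eq01 at h4
      rw [if_pos h1, if_pos h2] at h4
      omega
    intro i hi j hj h1 h2
    rcases Nat.lt_trichotomy i j with h3 | h3 | h3
    · exact (key j hj i h3 (by rwa [← h2]) h2.symm).elim
    · exact h3
    · exact (key i hi j h3 h1 h2).elim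
  · intro h
    refine sum_eq_zero fun i hi => sum_eq_zero fun j hj => ?_
    rw [mem_range] at hi hj
    unfold lt01 eq01
    by_cases h1 : dig (k * (r + 1) + 1) π i < k * (r + 1)
    · have h3 : dig (k * (r + 1) + 1) π i ≠ dig (k * (r + 1) + 1) π j := fun h2 => by
        have := h i hi j (by omega) h1 h2
        omega
      rw [if_neg h3, mul_zero]
    · rw [if_neg h1, zero_mul]

theorem vecN_congr {q k r N e c : ℕ} {R R' : ℕ → ℕ} (h : ∀ π < (k * (r + 1) + 1) ^ k,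
    injB k r π = 0 → pot k 1 N (yN k r N e c π) < pot k 1 N e → R π = R' π) :
    vecN q k r N R e c = vecN q k r N R' e c := by
  refine tab_congr fun π hπ => ifz_congr (fun h1 => ?_) fun _ => rfl
  rw [ifz_lt01, ifz_lt01]
  split_ifs with h2
  · exact h π hπ h1 h2
  · rfl

theorem vecN_lt {q k r N : ℕ} {R : ℕ → ℕ} (hR : ∀ π, R π < 2 ^ q) (e c : ℕ) :
    vecN q k r N R e c < (2 ^ q) ^ ((k * (r + 1) + 1) ^ k) :=
  tab_lt fun _ _ => ifz_lt (ifz_lt (by positivity) (hR _)) (by positivity)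

theorem dig_vecN {q k r N : ℕ} {R : ℕ → ℕ} (hR : ∀ π, R π < 2 ^ q) (e c : ℕ) {π : ℕ}
    (hπ : π < (k * (r + 1) + 1) ^ k) : dig (2 ^ q) (vecN q k r N R e c) π =
      if injB k r π = 0 ∧ pot k 1 N (yN k r N e c π) < pot k 1 N e then R π else 0 := by
  unfold vecN
  rw [dig_tab (fun _ _ => ifz_lt (ifz_lt (by positivity) (hR _)) (by positivity)) hπ, ifz_lt01]
  unfold ifz
  split_ifs <;> simp_all

theorem trm_congr {q k r N e c : ℕ} {lt : ℕ → ℕ} {bt : ℕ → ℕ → ℕ} {R R' : ℕ → ℕ}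
    (h : vldB k r N e c = 0 → ∀ π < (k * (r + 1) + 1) ^ k, injB k r π = 0 →
      pot k 1 N (yN k r N e c π) < pot k 1 N e → R π = R' π) :
    trm q k r N lt bt R e c = trm q k r N lt bt R' e c :=
  ifz_congr (fun h1 => by rw [vecN_congr (h h1)]) fun _ => rfl

section

variable {q k r N : ℕ} {lt : ℕ → ℕ} {bt : ℕ → ℕ → ℕ} {ps : ℕ → ℕ}

theorem Vf_eq : ∀ d e : ℕ, pot k 1 N e < d → Vf q k r N lt bt ps d e = V q k r N lt bt ps e := by
  have key : ∀ d d' e : ℕ, pot k 1 N e < d → pot k 1 N e < d' →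
      Vf q k r N lt bt ps d e = Vf q k r N lt bt ps d' e := by
    intro d
    induction d with
    | zero =>
      intro d' e h
      omega
    | succ d ih =>
      intro d' e h h'
      cases d' with
      | zero => omega
      | succ d' =>
        simp only [Vf]
        congr 1
        refine orB_congr fun c _ _ => trm_congr fun _ π _ _ h1 => ?_
        exact ih d' _ (by omega) (by omega)
  intro d e h
  exact key _ _ _ h (Nat.lt_succ_self _)

/-- The recursion for the values of the items. -/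
theorem V_eq (e : ℕ) : V q k r N lt bt ps e = ps (orB q 0 (N ^ (k * r)) fun c =>
    trm q k r N lt bt (fun π => V q k r N lt bt ps (yN k r N e c π)) e c) := by
  conv_lhs => unfold V
  simp only [Vf]
  congr 1
  exact orB_congr fun c _ _ => trm_congr fun _ π _ _ h1 => Vf_eq _ _ h1

theorem V_lt (hps : ∀ x, ps x < 2 ^ q) (e : ℕ) : V q k r N lt bt ps e < 2 ^ q := by
  rw [V_eq]
  exact hps _

end

/-! ### Zones -/

section

variable {k b M : ℕ}

theorem lft_digit_lt (hb : 0 < b) (hM : 0 < M) (Z d : ℕ) :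
    dig M Z (d / b) * b + d % b < M * b := by
  have h1 : dig M Z (d / b) + 1 ≤ M := dig_lt hM _ _
  have h2 : d % b < b := Nat.mod_lt _ hb
  have h3 := Nat.mul_le_mul_right b h1
  rw [Nat.succ_mul] at h3
  omega

theorem dig_lft (hb : 0 < b) (hM : 0 < M) (Z : ℕ) {n j : ℕ} (hj : j < n) (x : ℕ) :
    dig (M * b) (lft k b M Z n x) j =
      dig M Z (dig (2 * k * b) x j / b) * b + dig (2 * k * b) x j % b :=
  dig_tab (fun _ _ => lft_digit_lt hb hM _ _) hj

theorem lft_lt (hb : 0 < b) (hM : 0 < M) (Z n x : ℕ) : lft k b M Z n x < (M * b) ^ n :=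
  tab_lt fun _ _ => lft_digit_lt hb hM _ _

theorem cutN_digit_lt (hb : 0 < b) (hM : 0 < M) (C o t : ℕ) :
    dig M C t * b + dig b o t < M * b := by
  have h1 : dig M C t + 1 ≤ M := dig_lt hM _ _
  have h2 : dig b o t < b := dig_lt hb _ _
  have h3 := Nat.mul_le_mul_right b h1
  rw [Nat.succ_mul] at h3
  omega

theorem dig_cutN (hb : 0 < b) (hM : 0 < M) (C o : ℕ) {n t : ℕ} (ht : t < n) :
    dig (M * b) (cutN b M n C o) t = dig M C t * b + dig b o t :=
  dig_tab (fun _ _ => cutN_digit_lt hb hM _ _ _) ht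

theorem cutN_lt (hb : 0 < b) (hM : 0 < M) (n C o : ℕ) : cutN b M n C o < (M * b) ^ n :=
  tab_lt fun _ _ => cutN_digit_lt hb hM _ _ _

/-- The number of bits of a table. -/
theorem pow_L (q n : ℕ) : (2 ^ q) ^ n = 2 ^ (n * q) := by
  rw [← pow_mul, mul_comm]

theorem ZT_lt {q : ℕ} {W : ℕ → ℕ} (hW : ∀ e, W e < 2 ^ q) (φ Z : ℕ) :
    ZT q k b M W φ Z < 2 ^ ((2 * k * b) ^ (2 * k) * q) := by
  rw [← pow_L]
  exact tab_lt fun _ _ => ifz_lt (hW _) (by positivity)

theorem dig_ZT {q : ℕ} {W : ℕ → ℕ} (hW : ∀ e, W e < 2 ^ q) (φ Z : ℕ) {x : ℕ}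
    (hx : x < (2 * k * b) ^ (2 * k)) : dig (2 ^ q) (ZT q k b M W φ Z) x =
      if φ < pot k b (M * b) (lft k b M Z (2 * k) x) then 0 else W (lft k b M Z (2 * k) x) := by
  unfold ZT
  rw [dig_tab (fun _ _ => ifz_lt (hW _) (by positivity)) hx, ifz_lt01]

theorem ST_lt {q r : ℕ} {lt : ℕ → ℕ} {bt : ℕ → ℕ → ℕ} {W : ℕ → ℕ} (φ Z lo hi : ℕ) :
    ST q k r b M lt bt W φ Z lo hi < 2 ^ ((2 * k * b) ^ (2 * k) * q) := by
  rw [← pow_L]
  exact tab_lt fun _ _ => ifz_lt (orB_lt _ _ _ _) (by positivity)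

theorem dig_ST {q r : ℕ} {lt : ℕ → ℕ} {bt : ℕ → ℕ → ℕ} {W : ℕ → ℕ} (φ Z lo hi : ℕ) {x : ℕ}
    (hx : x < (2 * k * b) ^ (2 * k)) : dig (2 ^ q) (ST q k r b M lt bt W φ Z lo hi) x =
      if φ < pot k b (M * b) (lft k b M Z (2 * k) x) then 0 else
      (orB q lo hi fun C => orB q 0 (b ^ (k * r)) fun o =>
        ifz (farN k r b (M * b) (lft k b M Z (2 * k) x) (cutN b M (k * r) C o)) 0
          (trm q k r (M * b) lt bt
            (fun π => W (yN k r (M * b) (lft k b M Z (2 * k) x) (cutN b M (k * r) C o) π))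
            (lft k b M Z (2 * k) x) (cutN b M (k * r) C o))) := by
  unfold ST
  rw [dig_tab (fun _ _ => ifz_lt (orB_lt _ _ _ _) (by positivity)) hx, ifz_lt01]

end

/-- Numbers with the same digits are equal. -/
theorem ext_dig {B n x y : ℕ} (hx : x < B ^ n) (hy : y < B ^ n)
    (h : ∀ t < n, dig B x t = dig B y t) : x = y := by
  rw [← tab_dig x n hx, ← tab_dig y n hy]
  exact tab_congr h

end Pool.Agent.Helper31.RG
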