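import Pool.Agent.Helper31.RG.Goals

/-!
# Local systems of arity one for words
-/

namespace Pool.Agent.Helper31.RG

open Pool.Agent.Helper65.LinSpace Pool.Agent.Helper95.BG Finset

/-- A local system exists if the value is determined by the data. -/
theorem localSys_of {T : Type} {k r : ℕ} {K : Language T} {X : Type} [Finite X]
    (μ : (Fin k → List T) → X) (F : Set X)
    (h : ∀ x x', dat r μ x = dat r μ x' → μ x = μ x')
    (hF : ∀ w : List T, w ∈ K ↔ μ (fun i => if i.val = 0 then w else []) ∈ F) :
    LocalSys k r K := by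
  classical
  refine ⟨X, inferInstance, μ, fun S => if hS : ∃ x, dat r μ x = S then μ hS.choose else
    μ (fun _ => []), F, fun x => ?_, hF⟩
  have hS : ∃ y, dat r μ y = dat r μ x := ⟨x, rfl⟩
  simp only [dif_pos hS]
  exact h _ _ hS.choose_spec.symm

theorem wt_one_lt {m n : ℕ} (h : m < n) : wt 1 m < wt 1 n := by
  unfold wt ifz
  split_ifs <;> omega

theorem localSys_of_BG {T : Type} {K : Language T} (hK : Pool.Agent.Helper95.BG.LocalSys K) :
    LocalSys 1 1 K := by
  classical
  obtain ⟨X, _, μ, Ψ, F, h1, h2⟩ := hK
  set μ' : (Fin 1 → List T) → Option X := fun x => if x 0 = [] then none else some (μ (x 0))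
    with hμ'
  -- a cut into two words
  have cut2 : ∀ (x : Fin 1 → List T) (u v : List T), u ++ v = x 0 →
      Cut (r := 1) x (fun _ i => if i = 0 then u else v) := by
    intro x u v h l
    rw [Fin.fin_one_eq_zero l, ← h]
    simp [List.ofFn_succ]
  have cutE : ∀ (x : Fin 1 → List T) (D : Fin 1 → Fin 2 → List T), Cut (r := 1) x D →
      D 0 0 ++ D 0 1 = x 0 := by
    intro x D h
    have := h 0
    simpa [List.ofFn_succ] using this
  have len0 : ∀ u u' : List T, min u.length 2 = min u'.length 2 → u = [] → u' = [] := by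
    intro u u' h hu
    subst hu
    rw [← List.length_eq_zero_iff]
    simp at h
    omega
  have sing : ∀ (u u' : List T) (a : T), min u.length 2 = min u'.length 2 →
      u.head? = u'.head? → u = [a] → u' = [a] := by
    intro u u' a h h' hu
    subst hu
    have h3 : u'.length = 1 := by
      simp at h
      omega
    obtain ⟨b, rfl⟩ := List.length_eq_one_iff.1 h3
    simpa using h'.symm
  -- one direction of the transfer
  have tr : ∀ x x' : Fin 1 → List T, dat 1 μ' x ⊆ dat 1 μ' x' → ∀ u v : List T, u ++ v = x 0 →
      ∃ u' v' : List T, u' ++ v' = x' 0 ∧ (min u.length 2 = min u'.length 2) ∧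
        (u.head? = u'.head?) ∧ (min v.length 2 = min v'.length 2) ∧ (v.head? = v'.head?) ∧
        (u ≠ [] → v ≠ [] → μ u = μ u' ∧ μ v = μ v') := by
    intro x x' hs u v huv
    have hD := cut2 x u v huv
    obtain ⟨D', hD', hE⟩ := hs ⟨_, hD, rfl⟩
    have e1 := congrArg Prod.fst hE
    have e2 := congrArg Prod.snd hE
    have e3 := congrFun (congrFun e1 0) 0
    have e4 := congrFun (congrFun e1 0) 1
    simp only [infD, if_true, Prod.mk.injEq] at e3
    simp only [infD, Prod.mk.injEq] at e4
    rw [if_neg (by decide)] at e4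
    refine ⟨D' 0 0, D' 0 1, cutE x' D' hD', e3.1, e3.2, e4.1, e4.2, fun hu hv => ?_⟩
    have key : ∀ i : Fin 2, (if i = 0 then u else v) ≠ [] →
        (if i = 0 then u else v).length < (x 0).length →
        μ (if i = 0 then u else v) = μ (D' 0 i) := by
      intro i hi hlt
      have e5 := congrFun e2 (fun _ => some (0, i))
      simp only [val] at e5
      have hinj : Inj (k := 1) (r := 1) (fun _ => some (0, i)) := fun a b _ _ _ =>
        Subsingleton.elim _ _
      have hm : meas (subT (r := 1) (fun (_ : Fin 1) (i : Fin 2) => if i = 0 then u else v)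
          fun _ => some (0, i)) < meas x := by
        unfold meas
        rw [Fin.sum_univ_one, Fin.sum_univ_one]
        exact wt_one_lt hlt
      rw [if_pos ⟨hinj, hm⟩] at e5
      split_ifs at e5 with h6
      have e7 := Option.some.inj e5
      have g1 : μ' (subT (r := 1) (fun (_ : Fin 1) (i : Fin 2) => if i = 0 then u else v)
          fun _ => some (0, i)) = some (μ (if i = 0 then u else v)) := if_neg hi
      rw [g1] at e7
      by_cases h8 : D' 0 i = []
      · have g2 : μ' (subT (r := 1) D' fun _ => some (0, i)) = none := if_pos h8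
        rw [g2] at e7
        exact absurd e7 (by simp)
      · have g2 : μ' (subT (r := 1) D' fun _ => some (0, i)) = some (μ (D' 0 i)) := if_neg h8
        rw [g2] at e7
        exact Option.some.inj e7
    have hl : u.length + v.length = (x 0).length := by rw [← huv, List.length_append]
    have hu0 : 0 < u.length := List.length_pos_iff.2 hu
    have hv0 : 0 < v.length := List.length_pos_iff.2 hv
    refine ⟨?_, ?_⟩
    · have := key 0 (by simpa using hu) (by simp; omega)
      simpa using this
    · have := key 1 (by simpa using hv) (by simp; omega)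
      simpa using this
  refine localSys_of μ' {o | (o = none ∧ [] ∈ K) ∨ ∃ a ∈ F, o = some a} ?_ ?_
  · intro x x' h
    have t1 := tr x x' h.subset
    have t2 := tr x' x h.symm.subset
    -- the words of length at most one
    have small : ∀ (x x' : Fin 1 → List T), (∀ u v : List T, u ++ v = x 0 →
      ∃ u' v' : List T, u' ++ v' = x' 0 ∧ (min u.length 2 = min u'.length 2) ∧
        (u.head? = u'.head?) ∧ (min v.length 2 = min v'.length 2) ∧ (v.head? = v'.head?) ∧
        (u ≠ [] → v ≠ [] → μ u = μ u' ∧ μ v = μ v')) → (x 0).length < 2 → x' 0 = x 0 := by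
      intro x x' t hx
      obtain ⟨u', v', h3, h4, h5, h6, h7, _⟩ := t (x 0) [] (List.append_nil _)
      have hv' := len0 _ _ h6 rfl
      subst hv'
      rw [List.append_nil] at h3
      subst h3
      rcases hx0 : x 0 with _ | ⟨a, l⟩
      · exact len0 _ _ h4 hx0
      · rw [hx0] at hx
        have : l = [] := by
          rw [← List.length_eq_zero_iff]
          rw [List.length_cons] at hx
          omega
        subst this
        exact sing _ _ a h4 h5 hx0
    rcases Nat.lt_or_ge (x 0).length 2 with hx | hx
    · have := small x x' t1 hx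
      simp only [hμ', this]
    rcases Nat.lt_or_ge (x' 0).length 2 with hx' | hx'
    · have := small x' x t2 hx'
      simp only [hμ', this]
    have ne1 : x 0 ≠ [] := fun h0 => by rw [h0] at hx; simp at hx
    have ne2 : x' 0 ≠ [] := fun h0 => by rw [h0] at hx'; simp at hx'
    simp only [hμ']
    rw [if_neg ne1, if_neg ne2, h1 _ hx, h1 _ hx']
    congr 2
    have sub : ∀ (x x' : Fin 1 → List T), (∀ u v : List T, u ++ v = x 0 →
      ∃ u' v' : List T, u' ++ v' = x' 0 ∧ (min u.length 2 = min u'.length 2) ∧
        (u.head? = u'.head?) ∧ (min v.length 2 = min v'.length 2) ∧ (v.head? = v'.head?) ∧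
        (u ≠ [] → v ≠ [] → μ u = μ u' ∧ μ v = μ v')) →
        {p | ∃ u v : List T, u ≠ [] ∧ v ≠ [] ∧ u ++ v = x 0 ∧ p = (μ u, μ v)} ⊆
        {p | ∃ u v : List T, u ≠ [] ∧ v ≠ [] ∧ u ++ v = x' 0 ∧ p = (μ u, μ v)} := by
      rintro x x' t _ ⟨u, v, hu, hv, huv, rfl⟩
      obtain ⟨u', v', h3, h4, h5, h6, h7, h8⟩ := t u v huv
      obtain ⟨h9, h10⟩ := h8 hu hv
      refine ⟨u', v', fun h => hu (len0 _ _ h4.symm h), fun h => hv (len0 _ _ h6.symm h), h3, ?_⟩
      rw [h9, h10]
    exact Set.Subset.antisymm (sub x x' t1) (sub x' x t2)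
  · intro w
    simp only [hμ', Fin.val_zero, if_true]
    by_cases hw : w = []
    · subst hw
      simp
    · rw [if_neg hw, h2 w hw]
      simp

end Pool.Agent.Helper31.RG
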