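import Pool.Agent.Helper31.RG.Final
import Pool.Agent.Helper45.RG.COD

/-!
# The universal function for local systems
-/

namespace Pool.Agent.Helper31.RG

open Pool.Agent.Helper65.LinSpace Pool.Agent.Helper78 Pool.Agent.Helper78.Mpc
  Pool.Agent.Helper78.Xor Pool.Agent.Helper95.BG Finset Filter Pool.Agent.Helper45.RG.PkCOD

theorem col_of (tree : G_TREE) (let_ : Pool.Agent.Helper95.BG.G_LET)
    (map_ : G_MAPR) (code : G_CODE) (asy : G_ASY) : G_COL := by
  intro T _ k r K hk hK ι f C ε c hε hf hlen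
  obtain ⟨q, BT, PS, AC, τ, hτ, hcode⟩ := code T k r K hk hK
  obtain ⟨nT, Bg, MC, n₁, idx, hD⟩ := let_ T f C ε (c + 1) hε hf
  obtain ⟨LT, IT, hmap⟩ := map_ T f ι (c + 1) nT Bg MC n₁ idx q τ hD hτ
  obtain ⟨n₂, hn₂⟩ := eventually_atTop.1 (asy.1 (q + k + r))
  obtain ⟨n₃, hn₃⟩ := eventually_atTop.1 (asy.2.2 k C ε (c + 3) hk hε)
  refine ⟨encL [q, BT, PS, nT, Bg, MC, LT, IT, AC, k, r, 0], n₁ + n₂ + n₃ + 1,
    fun w α hw hα => ?_⟩
  rw [UR_ne_zero_iff]
  refine exists_congr fun v => and_congr_right fun hv => ?_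
  rw [← Avg.num_append]
  have h0 : q + k + r ≤ kap w.length := hn₂ w.length (by omega)
  have hq : q ≤ kap w.length := by omega
  have hk' : k ≤ kap w.length := by omega
  have hr : r ≤ kap w.length := by omega
  obtain ⟨h2, h3, h4⟩ := asy.2.1 k w.length hk
  have hyl : (α ++ v).length ≤ (c + 1) * w.length := by
    rw [List.length_append, Nat.succ_mul]
    omega
  have h5 : (w.length : ℝ) + C * (((w.length + (α ++ v).length : ℕ) : ℝ) + 1) ^
      (1 + 1 / (2 * (k : ℝ)) - ε) ≤ (mS k w.length : ℕ) := by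
    refine hn₃ w.length (by omega) (w.length + (α ++ v).length) ?_
    have e1 : (c + 3) * (w.length + 1) = (c + 1) * w.length + 2 * w.length + (c + 3) := by ring
    omega
  have h6 : w.length + (f w (α ++ v)).length ≤ mS k w.length := by
    have h7 := hlen w (α ++ v)
    push_cast at h5
    have h8 : ((w.length + (f w (α ++ v)).length : ℕ) : ℝ) ≤
        (mS k w.length : ℕ) := by
      push_cast
      linarith
    exact_mod_cast h8
  obtain ⟨hm, hl⟩ := hmap w (α ++ v) (by omega) hyl (mS k w.length) h4 h6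
  have hle : (w.map ι ++ f w (α ++ v)).length ≤ mS k w.length := by
    rw [List.length_append, List.length_map]
    exact h6
  have hdiv : (w.map ι ++ f w (α ++ v)).length / bS k w.length <
      2 ^ ll w.length :=
    lt_of_le_of_lt (Nat.div_le_div_right hle) h3
  have hN : (w.map ι ++ f w (α ++ v)).length <
      2 ^ ll w.length * bS k w.length :=
    (Nat.div_lt_iff_lt_mul h2).1 hdiv
  rw [hcode _ (2 ^ ll w.length * bS k w.length)
    (ltL q nT Bg MC LT IT (LW w.length) (2 ^ (2 * ll w.length)) (num w)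
    (num (α ++ v))) hN hl]
  have hval : valR (encL [q, BT, PS, nT, Bg, MC, LT, IT, AC, k, r, 0])
      (num w) (num (α ++ v)) =
      V q k r (2 ^ ll w.length * bS k w.length)
        (ltL q nT Bg MC LT IT (LW w.length) (2 ^ (2 * ll w.length)) (num w)
        (num (α ++ v))) (btR q k r BT) (psN q PS)
        ((w.map ι ++ f w (α ++ v)).length *
          (2 ^ ll w.length * bS k w.length)) := by
    unfold valR
    simp only [encL, cp, Nat.unpair_pair]
    rw [Avg.log_num, min_eq_left hq, min_eq_left hk', min_eq_left hr, hm]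
    exact tree q k r _ _ _ _ _ _ hk h2 (btR_lt _ _ _ _) (psN_lt _ _) hdiv
  rw [hval]
  simp only [encL, cp, Nat.unpair_pair]

end Pool.Agent.Helper31.RG
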