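import Pool.Agent.Helper31.RG.Defs
import Pool.Agent.Helper95.BG.Basic

/-!
# Range concatenation grammars: the evaluation as a tree evaluation (definitions)

An item is a tuple of `k` ranges of a word; it is coded by the number `e` with `2 k` digits in base
`N`, the endpoints of the ranges. Each range is cut into `r + 1` pieces; a cut is a number `c` with
`k r` digits in base `N`. A pattern `π` is a number with `k` digits in base `k (r + 1) + 1` and
chooses for each component of a new item a piece, or the empty word. The positions are divided into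
`M` blocks of length `b`. A zone `Z` (a number with `2 k` digits in base `M`) is a tuple of `2 k`
blocks; the table of a zone contains the values of the items whose endpoints are in the zone.
-/

namespace Pool.Agent.Helper31.RG

open Pool.Agent.Helper65.LinSpace Pool.Agent.Helper78 Pool.Agent.Helper78.Mpc
  Pool.Agent.Helper78.Xor Pool.Agent.Helper95.BG Finset

/-! ### Items, cuts, patterns -/

/-- The weight of a range of length `n`. -/
def wt (k n : ℕ) : ℕ := (k + 1) * n + ifz n 1 0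

/-- The point number `d`: the endpoint number `d` of the item `e` for `d < 2 k`, and the cut number
`d - 2 k` otherwise. -/
def pt (k N e c d : ℕ) : ℕ := ifz (lt01 d (2 * k)) (dig N c (d - 2 * k)) (dig N e d)

/-- The number of the left end of the piece `p` (this is the piece `p % (r + 1)` of the range
`p / (r + 1)`). -/
def lD (k r p : ℕ) : ℕ :=
  ifz (p % (r + 1)) (2 * (p / (r + 1))) (2 * k + (p / (r + 1) * r + (p % (r + 1) - 1)))

/-- The number of the right end of the piece `p`. -/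
def rD (k r p : ℕ) : ℕ :=
  ifz (r - p % (r + 1)) (2 * (p / (r + 1)) + 1) (2 * k + (p / (r + 1) * r + p % (r + 1)))

/-- The number of the point which is the endpoint number `t` of the item chosen by the pattern
`π`. -/
def sel (k r π t : ℕ) : ℕ :=
  ifz (lt01 (dig (k * (r + 1) + 1) π (t / 2)) (k * (r + 1))) 0
    (ifz (t % 2) (lD k r (dig (k * (r + 1) + 1) π (t / 2)))
      (rD k r (dig (k * (r + 1) + 1) π (t / 2))))

/-- The item chosen by the pattern `π`. -/
def yN (k r N e c π : ℕ) : ℕ := tab N (2 * k) fun t => pt k N e c (sel k r π t)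

/-- This is `0` if the pattern does not choose a piece twice. -/
def injB (k r π : ℕ) : ℕ :=
  ∑ i ∈ range k, ∑ j ∈ range i,
    lt01 (dig (k * (r + 1) + 1) π i) (k * (r + 1)) *
      eq01 (dig (k * (r + 1) + 1) π i) (dig (k * (r + 1) + 1) π j)

/-- The potential: the sum of the weights of the ranges, measured in blocks of length `b`. -/
def pot (k b N e : ℕ) : ℕ :=
  ∑ l ∈ range k, wt k (dig N e (2 * l + 1) / b - dig N e (2 * l) / b)

/-- This is `0` if the endpoints of the pieces are in the right order. -/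
def vldB (k r N e c : ℕ) : ℕ :=
  ∑ p ∈ range (k * (r + 1)), lt01 (pt k N e c (rD k r p)) (pt k N e c (lD k r p))

/-- This is `0` if no cut is in a block strictly between the blocks of the endpoints of its
range. -/
def farN (k r b N e c : ℕ) : ℕ :=
  ∑ t ∈ range (k * r), lt01 (dig N e (2 * (t / r)) / b) (dig N c t / b) *
    lt01 (dig N c t / b) (dig N e (2 * (t / r) + 1) / b)

/-- The lengths (cut off at `2`) and the first letters of the pieces. -/
def infN (q k r N : ℕ) (lt : ℕ → ℕ) (e c : ℕ) : ℕ :=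
  tab (2 ^ (q + 2)) (k * (r + 1)) fun p =>
    ifz (pt k N e c (rD k r p) - pt k N e c (lD k r p)) 0
      (min (pt k N e c (rD k r p) - pt k N e c (lD k r p)) 2 * 2 ^ q + lt (pt k N e c (lD k r p)))

/-- The values `R π` of the items chosen by all patterns `π` without repetitions for which the
weight of the item is smaller than that of `e`. -/
def vecN (q k r N : ℕ) (R : ℕ → ℕ) (e c : ℕ) : ℕ :=
  tab (2 ^ q) ((k * (r + 1) + 1) ^ k) fun π =>
    ifz (injB k r π) (ifz (lt01 (pot k 1 N (yN k r N e c π)) (pot k 1 N e)) 0 (R π)) 0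

/-- The contribution of the cut `c`. -/
def trm (q k r N : ℕ) (lt : ℕ → ℕ) (bt : ℕ → ℕ → ℕ) (R : ℕ → ℕ) (e c : ℕ) : ℕ :=
  ifz (vldB k r N e c) (bt (infN q k r N lt e c) (vecN q k r N R e c)) 0

/-- The values of the items of weight less than `d`. -/
def Vf (q k r N : ℕ) (lt : ℕ → ℕ) (bt : ℕ → ℕ → ℕ) (ps : ℕ → ℕ) : ℕ → ℕ → ℕ
  | 0, _ => 0
  | d + 1, e => ps (orB q 0 (N ^ (k * r)) fun c =>
      trm q k r N lt bt (fun π => Vf q k r N lt bt ps d (yN k r N e c π)) e c)

/-- The value of the item `e`. -/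
def V (q k r N : ℕ) (lt : ℕ → ℕ) (bt : ℕ → ℕ → ℕ) (ps : ℕ → ℕ) (e : ℕ) : ℕ :=
  Vf q k r N lt bt ps (pot k 1 N e + 1) e

/-! ### Zones -/

/-- The positions with the codes `dig (2 k b) x 0, …, dig (2 k b) x (n - 1)` in the zone `Z`: the
position with the code `d` is in the block number `d / b` of the zone. -/
def lft (k b M Z n x : ℕ) : ℕ :=
  tab (M * b) n fun j => dig M Z (dig (2 * k * b) x j / b) * b + dig (2 * k * b) x j % b

/-- The table of the zone `Z`: the values of the items of potential at most `φ`, the other entries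
are `0`. -/
def ZT (q k b M : ℕ) (W : ℕ → ℕ) (φ Z : ℕ) : ℕ :=
  tab (2 ^ q) ((2 * k * b) ^ (2 * k)) fun x =>
    ifz (lt01 φ (pot k b (M * b) (lft k b M Z (2 * k) x))) (W (lft k b M Z (2 * k) x)) 0

/-- The cuts with the blocks `C` and the offsets `o`. -/
def cutN (b M n C o : ℕ) : ℕ := tab (M * b) n fun t => dig M C t * b + dig b o t

/-- The contribution of the far cuts in the blocks `C`, `lo ≤ C < hi`, to the table of the zone
`Z`. -/
def ST (q k r b M : ℕ) (lt : ℕ → ℕ) (bt : ℕ → ℕ → ℕ) (W : ℕ → ℕ) (φ Z lo hi : ℕ) : ℕ :=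
  tab (2 ^ q) ((2 * k * b) ^ (2 * k)) fun x =>
    ifz (lt01 φ (pot k b (M * b) (lft k b M Z (2 * k) x)))
      (orB q lo hi fun C => orB q 0 (b ^ (k * r)) fun o =>
        ifz (farN k r b (M * b) (lft k b M Z (2 * k) x) (cutN b M (k * r) C o)) 0
          (trm q k r (M * b) lt bt
            (fun π => W (yN k r (M * b) (lft k b M Z (2 * k) x) (cutN b M (k * r) C o) π))
            (lft k b M Z (2 * k) x) (cutN b M (k * r) C o))) 0

/-- The contribution of the cut with the code `xc` in the zone, if it is near; `W` is the table of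
the zone. -/
def nearN (q k r b M : ℕ) (lt : ℕ → ℕ) (bt : ℕ → ℕ → ℕ) (Z W x xc : ℕ) : ℕ :=
  ifz (farN k r b (M * b) (lft k b M Z (2 * k) x) (lft k b M Z (k * r) xc))
    (trm q k r (M * b) lt bt (fun π => dig (2 ^ q) W (yN k r (2 * k * b) x xc π))
      (lft k b M Z (2 * k) x) (lft k b M Z (k * r) xc)) 0

/-- One step of the computation of the table of a zone, from the contributions `S` of the far cuts,
the table `Pv` of the potential `φ - 1`, and the preceding approximation `W`. -/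
def stepZ (q k r b M : ℕ) (lt : ℕ → ℕ) (bt : ℕ → ℕ → ℕ) (ps : ℕ → ℕ) (φ Z S Pv W : ℕ) : ℕ :=
  tab (2 ^ q) ((2 * k * b) ^ (2 * k)) fun x =>
    ifz (lt01 φ (pot k b (M * b) (lft k b M Z (2 * k) x)))
      (ifz (lt01 (pot k b (M * b) (lft k b M Z (2 * k) x)) φ)
        (ps (lor q (dig (2 ^ q) S x)
          (orB q 0 ((2 * k * b) ^ (k * r)) fun xc => nearN q k r b M lt bt Z W x xc)))
        (dig (2 ^ q) Pv x)) 0

/-- The table of a zone. -/
def classZ (q k r b M : ℕ) (lt : ℕ → ℕ) (bt : ℕ → ℕ → ℕ) (ps : ℕ → ℕ) (φ Z S Pv : ℕ) : ℕ :=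
  nrec 0 (fun _ W => stepZ q k r b M lt bt ps φ Z S Pv W) (k * ((k + 1) * (M * b) + 1) + 1)

/-- The number of the block of the point number `d` of the item with the code `x`, among the blocks
of the zone and of the cuts. -/
def slot (k b x d : ℕ) : ℕ := ifz (lt01 d (2 * k)) d (dig (2 * k * b) x d / b)

/-- The number of the zone of the item chosen by the pattern `π`. -/
def chi (k r b x π : ℕ) : ℕ :=
  tab (2 * k + k * r) (2 * k) fun t => slot k b x (sel k r π t)

/-- The code of the item chosen by the pattern `π` in this zone. -/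
def ent (k r b N e c π : ℕ) : ℕ :=
  tab (2 * k * b) (2 * k) fun t => t * b + pt k N e c (sel k r π t) % b

/-- The zone number `i` among the zones which consist of blocks of the zone `Z` and of the cuts. -/
def subZ (k r M Z C i : ℕ) : ℕ :=
  tab M (2 * k) fun t => ifz (lt01 (dig (2 * k + k * r) i t) (2 * k))
    (dig M C (dig (2 * k + k * r) i t - 2 * k)) (dig M Z (dig (2 * k + k * r) i t))

/-- The contribution of the far cuts in the blocks `C`, from the list `X` of the tables of the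
zones `subZ k r M Z C i`. -/
def prodZ (q k r b M : ℕ) (lt : ℕ → ℕ) (bt : ℕ → ℕ → ℕ) (φ Z C X : ℕ) : ℕ :=
  tab (2 ^ q) ((2 * k * b) ^ (2 * k)) fun x =>
    ifz (lt01 φ (pot k b (M * b) (lft k b M Z (2 * k) x)))
      (orB q 0 (b ^ (k * r)) fun o =>
        ifz (farN k r b (M * b) (lft k b M Z (2 * k) x) (cutN b M (k * r) C o)) 0
          (trm q k r (M * b) lt bt
            (fun π => dig (2 ^ q) (dig (2 ^ ((2 * k * b) ^ (2 * k) * q)) X (chi k r b x π))
              (ent k r b (M * b) (lft k b M Z (2 * k) x) (cutN b M (k * r) C o) π))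
            (lft k b M Z (2 * k) x) (cutN b M (k * r) C o))) 0

/-- The disjunction of two tables. -/
def sumZ (q k b A B : ℕ) : ℕ :=
  tab (2 ^ q) ((2 * k * b) ^ (2 * k)) fun x => lor q (dig (2 ^ q) A x) (dig (2 ^ q) B x)

/-! ### The tree -/

/-- The code of a node. For `l = 0` and `C = 0` this is the table of the zone `Z` for the potential
`φ`, and for `l + 1` the contribution of the far cuts in the blocks `C 2^l, …, (C + 1) 2^l - 1`. -/
def nd (H MZ MC φ l Z C : ℕ) : ℕ := ((φ * H + l) * MZ + Z) * MC + C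

/-- The number of levels for one value of the potential. -/
def HH (k r Λ : ℕ) : ℕ := Λ * (k * r) + 2

/-- The children of the node with the entries `φ`, `l`, `Z`, `C`. -/
def chZ (k r M H φ l Z C i : ℕ) : ℕ :=
  ifz l
    (ifz i (nd H (M ^ (2 * k)) (M ^ (k * r)) φ (H - 1) Z 0)
      (nd H (M ^ (2 * k)) (M ^ (k * r)) (φ - 1) 0 Z 0))
    (ifz (l - 1) (nd H (M ^ (2 * k)) (M ^ (k * r)) (φ - 1) 0 (subZ k r M Z C i) 0)
      (nd H (M ^ (2 * k)) (M ^ (k * r)) φ (l - 1) Z ((2 * C + i) % M ^ (k * r))))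

/-- The operation of the node with the entries `φ`, `l`, `Z`, `C`. -/
def FZ (q k r b M : ℕ) (lt : ℕ → ℕ) (bt : ℕ → ℕ → ℕ) (ps : ℕ → ℕ) (φ l Z C X : ℕ) : ℕ :=
  ifz l
    (ifz φ 0 (classZ q k r b M lt bt ps φ Z (dig (2 ^ ((2 * k * b) ^ (2 * k) * q)) X 0)
      (dig (2 ^ ((2 * k * b) ^ (2 * k) * q)) X 1)))
    (ifz (l - 1) (prodZ q k r b M lt bt φ Z C X)
      (sumZ q k b (dig (2 ^ ((2 * k * b) ^ (2 * k) * q)) X 0)
        (dig (2 ^ ((2 * k * b) ^ (2 * k) * q)) X 1)))

/-- The value of the node `u` at the height `h`. -/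
def VZ (q k r b Λ : ℕ) (lt : ℕ → ℕ) (bt : ℕ → ℕ → ℕ) (ps : ℕ → ℕ) (h u : ℕ) : ℕ :=
  gval ((2 * k + k * r) ^ (2 * k)) ((2 * k * b) ^ (2 * k) * q)
    (fun u X => FZ q k r b (2 ^ Λ) lt bt ps
      (u / (2 ^ Λ) ^ (k * r) / (2 ^ Λ) ^ (2 * k) / HH k r Λ)
      (u / (2 ^ Λ) ^ (k * r) / (2 ^ Λ) ^ (2 * k) % HH k r Λ)
      (u / (2 ^ Λ) ^ (k * r) % (2 ^ Λ) ^ (2 * k)) (u % (2 ^ Λ) ^ (k * r)) X)
    (fun _ => 0)
    (fun u i => chZ k r (2 ^ Λ) (HH k r Λ)
      (u / (2 ^ Λ) ^ (k * r) / (2 ^ Λ) ^ (2 * k) / HH k r Λ)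
      (u / (2 ^ Λ) ^ (k * r) / (2 ^ Λ) ^ (2 * k) % HH k r Λ)
      (u / (2 ^ Λ) ^ (k * r) % (2 ^ Λ) ^ (2 * k)) (u % (2 ^ Λ) ^ (k * r)) i) h u

/-- The value of the item whose first range is the whole word of length `m` and whose other ranges
are empty, by tree evaluation. -/
def eng (q k r b Λ : ℕ) (lt : ℕ → ℕ) (bt : ℕ → ℕ → ℕ) (ps : ℕ → ℕ) (m : ℕ) : ℕ :=
  dig (2 ^ q) (VZ q k r b Λ lt bt ps (((k + 1) * (m / b) + k) * HH k r Λ)
    (nd (HH k r Λ) ((2 ^ Λ) ^ (2 * k)) ((2 ^ Λ) ^ (k * r)) ((k + 1) * (m / b) + k) 0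
      (m / b * 2 ^ Λ) 0)) ((b + m % b) * (2 * k * b))

/-- The function of the data of a cut, given by a table. -/
def btR (q k r BT x y : ℕ) : ℕ :=
  dig (2 ^ q) BT (x * (2 ^ q) ^ ((k * (r + 1) + 1) ^ k) + y)

/-! ### Parameters -/

/-- The bound for the parameters `q`, `k`, `r`. -/
def kap (n : ℕ) : ℕ := Nat.sqrt (Nat.log 2 (ll n) / 10)

/-- The number of blocks. -/
def nb (n : ℕ) : ℕ := n / (ll n * ll n * ll n * ll n)

/-- The side of the blocks. -/
def bS (k n : ℕ) : ℕ := 2 ^ (Nat.log 2 (nb n) / (2 * k))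

/-- The bound for the length of the word. -/
def mS (k n : ℕ) : ℕ := bS k n * nb n

/-- The length of the word `ι(w) f(w, y)`, cut off at `cap`. -/
def mL (nT Bg MC cap x z : ℕ) : ℕ :=
  min (Nat.log 2 x + lenL nT Bg MC (LW (Nat.log 2 x)) (2 ^ (2 * ll (Nat.log 2 x))) cap x z) cap

/-- The value of the word `ι(w) f(w, y)`; the code `e` has the entries `q`, `BT`, `PS`, `nT`, `Bg`,
`MC`, `LT`, `IT`, `AC`, `k`, `r`. -/
def valR (e x z : ℕ) : ℕ :=
  eng (min (cp 0 e) (kap (Nat.log 2 x))) (min (cp 9 e) (kap (Nat.log 2 x)))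
    (min (cp 10 e) (kap (Nat.log 2 x))) (bS (min (cp 9 e) (kap (Nat.log 2 x))) (Nat.log 2 x))
    (ll (Nat.log 2 x))
    (ltL (min (cp 0 e) (kap (Nat.log 2 x))) (cp 3 e) (cp 4 e) (cp 5 e) (cp 6 e) (cp 7 e)
      (LW (Nat.log 2 x)) (2 ^ (2 * ll (Nat.log 2 x))) x z)
    (btR (min (cp 0 e) (kap (Nat.log 2 x))) (min (cp 9 e) (kap (Nat.log 2 x)))
      (min (cp 10 e) (kap (Nat.log 2 x))) (cp 1 e))
    (psN (min (cp 0 e) (kap (Nat.log 2 x))) (cp 2 e))
    (mL (cp 3 e) (cp 4 e) (cp 5 e) (mS (min (cp 9 e) (kap (Nat.log 2 x))) (Nat.log 2 x)) x z)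

/-- The number of accepting guesses. -/
def UR (c e a x : ℕ) : ℕ :=
  ∑ y ∈ range (2 ^ (c * Nat.log 2 x + 1)), lt01 0 y * dig 2 (cp 8 e) (valR e x (Avg.catN a y))

end Pool.Agent.Helper31.RG
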