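import Pool.Agent.Helper95.BG.Defs

/-!
# Range concatenation grammars with negation: definitions
-/

namespace Pool.Agent.Helper31.RG

/-- A clause `A(u₁, …, uₘ) → B₁(x…), …, ¬C₁(y…), …`, where the nonterminal `A` is given by the
context. The words `uᵢ` consist of letters and variables; the variables are natural numbers. A
literal is a nonterminal with the list of the variables which are its arguments. -/
structure Clause (T N : Type) where
  lhs : List (List (T ⊕ ℕ))
  pos : List (N × List ℕ)
  neg : List (N × List ℕ)

/-- The clause is linear of arity at most `k`: tuples have at most `k` components, every variable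
occurs at most once on the left-hand side, and the arguments of each literal are different variables
of the left-hand side. Different literals may share variables. -/
def Clause.Linear {T N : Type} (k : ℕ) (c : Clause T N) : Prop :=
  c.lhs.length ≤ k ∧ (c.lhs.flatten.filterMap Sum.getRight?).Nodup ∧
    ∀ p ∈ c.pos ++ c.neg, p.2.length ≤ k ∧ p.2.Nodup ∧ ∀ v ∈ p.2, Sum.inr v ∈ c.lhs.flatten

/-- A (noncombinatorial) negative range concatenation grammar over the alphabet `T`: finitely many
nonterminals, each of them with finitely many clauses. The nonterminals are predicates of tuples of
words. -/
structure Grammar (T : Type) where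
  N : Type
  [finN : Finite N]
  start : N
  rules : N → List (Clause T N)

/-- All clauses of the grammar are linear of arity at most `k`. -/
def Grammar.Linear {T : Type} (k : ℕ) (G : Grammar T) : Prop :=
  ∀ A, ∀ c ∈ G.rules A, c.Linear k

section

variable {T : Type}

/-- The word which one obtains from a word over letters and variables if the word `ν x` is
substituted for each variable `x`. -/
def subst (ν : ℕ → List T) (u : List (T ⊕ ℕ)) : List T :=
  (u.map (Sum.elim (fun a => [a]) ν)).flatten

variable (G : Grammar T)

/-- The tuples of words which one obtains for the predicate `A` by one application of a clause, when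
the positive literals are evaluated with `S` and the negative literals with `I`. -/
def Grammar.rhs (I S : G.N → Set (List (List T))) (A : G.N) : Set (List (List T)) :=
  {x | ∃ c ∈ G.rules A, ∃ ν : ℕ → List T, c.lhs.map (subst ν) = x ∧
    (∀ p ∈ c.pos, p.2.map ν ∈ S p.1) ∧ ∀ p ∈ c.neg, p.2.map ν ∉ I p.1}

/-- The least predicates which are closed under the clauses, when the negative literals are
evaluated with the fixed predicates `I`. -/
def Grammar.least (I : G.N → Set (List (List T))) (A : G.N) : Set (List (List T)) :=
  {x | ∀ S : G.N → Set (List (List T)), (∀ B, ∀ y ∈ G.rhs I S B, y ∈ S B) → x ∈ S A}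

/-- The predicates in the well-founded semantics (Van Gelder, Ross and Schlipf 1991; for Boolean
grammars Kountouriotis, Nomikos and Rondogiannis 2009), the tuples of truth value true: this is the
least fixed point of the square of the antitone operator `least`. For grammars without negative
literals these are the least predicates closed under the clauses, and for stratified grammars this
is the stratified semantics. -/
def Grammar.wellFounded (A : G.N) : Set (List (List T)) :=
  {x | ∀ I : G.N → Set (List (List T)), (∀ B, ∀ y ∈ G.least (G.least I) B, y ∈ I B) → x ∈ I A}

/-- A set of tuples is closed if it contains with the left-hand side of an instance of a clause also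
the tuples of the literals. -/
def Grammar.Closed (M : Set (List (List T))) : Prop :=
  ∀ A, ∀ c ∈ G.rules A, ∀ ν : ℕ → List T, c.lhs.map (subst ν) ∈ M →
    ∀ p ∈ c.pos ++ c.neg, p.2.map ν ∈ M

/-- `K` is the language of `G` in the semantics of the unique solution in the strong sense (for
Boolean grammars Okhotin 2004): there is `S` such that modulo every finite closed set `M` of tuples
`S` is the only solution of the system `A = rhs A`, and `K` consists of the words of the start
symbol in `S`. -/
def Grammar.Generates (K : Language T) : Prop :=
  ∃ S : G.N → Set (List (List T)), {w | [w] ∈ S G.start} = K ∧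
    ∀ M : Set (List (List T)), M.Finite → G.Closed M → ∀ S' : G.N → Set (List (List T)),
      (∀ A, ∀ x ∈ M, x ∈ S' A ↔ x ∈ G.rhs S' S' A) ↔ ∀ A, ∀ x ∈ M, x ∈ S' A ↔ x ∈ S A

end

end Pool.Agent.Helper31.RG
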