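import Pool.Agent.Helper31.RG.Bridge
import Pool.Agent.Helper95.BG.Final

/-!
# Range concatenation grammars: the main theorem from its parts
-/

namespace Pool.Agent.Helper31.RG

open Pool.Agent.Helper65.LinSpace Pool.Agent.Helper78 Pool.Agent.Helper78.Mpc
  Pool.Agent.Helper78.Xor Pool.Agent.Helper78.Avg Pool.Agent.Helper95.BG Finset Filter

/-- The universal function is correct for all languages of finite local systems. -/
def G_COL : Prop := ∀ (T : Type) [Finite T] (k r : ℕ) (K : Language T), 0 < k →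
  LocalSys k r K → ∀ (ι : Bool → T)
  (f : List Bool → List Bool → List T) (C ε : ℝ) (c : ℕ), 0 < ε →
  Computable (fun n => C * ((n : ℝ) + 1) ^ (1 - ε)) f →
  (∀ w y, ((f w y).length : ℝ) ≤
    C * ((w.length : ℝ) + y.length + 1) ^ (1 + 1 / (2 * (k : ℝ)) - ε)) →
  ∃ e n₀ : ℕ, ∀ w α : List Bool, n₀ ≤ w.length → α.length ≤ w.length →
    (UR c e (num α) (num w) ≠ 0 ↔
      ∃ v : List Bool, v.length ≤ c * w.length ∧ w.map ι ++ f w (α ++ v) ∈ K)

/-- `K` is the language of a linear negative range concatenation grammar of arity at most `k`, or of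
a Boolean grammar and `k = 1`. -/
def Generated {T : Type} (k : ℕ) (K : Language T) : Prop :=
  (∃ G : Grammar T, G.Linear k ∧ (G.Generates K ∨ K = {w | [w] ∈ G.wellFounded G.start})) ∨
    (k = 1 ∧ ∃ G : BooleanGrammar T, G.Generates K ∨ K = G.wellFounded G.start)

theorem Generated.localSys (wf : G_WF) (su : G_SU) (bwf : Pool.Agent.Helper95.BG.G_WF)
    (bsu : Pool.Agent.Helper95.BG.G_SU) {T : Type} {k : ℕ} {K : Language T} (hk : 0 < k)
    (h : Generated k K) : ∃ r, LocalSys k r K := by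
  rcases h with ⟨G, hG, h | h⟩ | ⟨rfl, G, h | h⟩
  · exact su T G k K hk hG h
  · rw [h]
    exact wf T G k hk hG
  · exact ⟨1, localSys_of_BG (bsu T G K h)⟩
  · rw [h]
    exact ⟨1, localSys_of_BG (bwf T G)⟩

theorem main_of (c : ℕ) (lsg : G_LSG) (col : G_COL) (wf : G_WF) (su : G_SU)
    (bwf : Pool.Agent.Helper95.BG.G_WF) (bsu : Pool.Agent.Helper95.BG.G_SU) :
    ∃ (L : Set (List Bool)) (s : ℕ → List Bool), DLINSPACE L ∧ (∀ n, (s n).length = n) ∧
      (∀ w, w ∈ L ↔ Odd ((List.zipWith and (s w.length) w).count true)) ∧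
      ∀ (T : Type) [Finite T] (k : ℕ) (K : Language T), 0 < k → Generated k K →
        ∀ (ι : Bool → T) (f : List Bool → List Bool → List T) (C ε : ℝ), 0 < ε →
        Computable (fun n => C * ((n : ℝ) + 1) ^ (1 - ε)) f →
        (∀ w y, ((f w y).length : ℝ) ≤
          C * ((w.length : ℝ) + y.length + 1) ^ (1 + 1 / (2 * (k : ℝ)) - ε)) →
        ∃ c' : ℝ, ∀ (n : ℕ) (α : List Bool),
          |({w : List Bool | w.length = n ∧ (w ∈ L ↔ ∃ v : List Bool, v.length ≤ c * n ∧
            w.map ι ++ f w (α ++ v) ∈ K)}.ncard : ℝ) - 2 ^ n / 2| ≤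
            c' * ((min α.length (n - α.length) : ℕ) + 1) * 2 ^ (((n : ℝ) + α.length) / 2) := by
  obtain ⟨L, s, h1, h2, h3, h4⟩ := exists_hard (U := UR c) (lsg c)
  refine ⟨L, s, h1, h2, h3, fun T _ k K hk hK ι f C ε hε hf hlen => ?_⟩
  obtain ⟨r, hr⟩ := hK.localSys wf su bwf bsu hk
  obtain ⟨e, n₀, he⟩ := col T k r K hk hr ι f C ε c hε hf hlen
  refine ⟨2 ^ (e + 1 + n₀), fun n α => ?_⟩
  have hn0 : (0 : ℝ) ≤ n := Nat.cast_nonneg n
  have hm0 : (0 : ℝ) ≤ α.length := Nat.cast_nonneg _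
  have hmin : (0 : ℝ) ≤ (min α.length (n - α.length) : ℕ) := Nat.cast_nonneg _
  by_cases hcase : n₀ ≤ n ∧ α.length ≤ n
  · obtain ⟨hn, hα⟩ := hcase
    have key : {w : List Bool | w.length = n ∧ (w ∈ L ↔ ∃ v : List Bool, v.length ≤ c * n ∧
        w.map ι ++ f w (α ++ v) ∈ K)} =
        {w : List Bool | w.length = n ∧ (UR c e (num α) (num w) ≠ 0 ↔ w ∈ L)} := by
      ext w
      simp only [Set.mem_setOf_eq]
      refine and_congr_right fun hw => ?_
      subst hw
      rw [he w α hn hα]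
      exact ⟨fun h => h.symm, fun h => h.symm⟩
    rw [key]
    refine (h4 e n α).1.trans ?_
    have h5 : (2 : ℝ) ^ (e + 1) ≤ 2 ^ (e + 1 + n₀) := pow_le_pow_right₀ (by norm_num) (by omega)
    refine mul_le_mul_of_nonneg_right (mul_le_mul_of_nonneg_right h5 (by positivity))
      (by positivity)
  · refine (abs_trivial fun w hw => hw.1).trans ?_
    have h6 : (2 : ℝ) ^ n ≤ 2 ^ (e + 1 + n₀) * 2 ^ (((n : ℝ) + α.length) / 2) := by
      rcases Nat.lt_or_ge n n₀ with hn | hn
      · have h7 : (1 : ℝ) ≤ 2 ^ (((n : ℝ) + α.length) / 2) :=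
          Real.one_le_rpow (by norm_num) (by positivity)
        have h8 : (2 : ℝ) ^ n ≤ 2 ^ (e + 1 + n₀) := pow_le_pow_right₀ (by norm_num) (by omega)
        calc (2 : ℝ) ^ n = 2 ^ n * 1 := by ring
          _ ≤ _ := mul_le_mul h8 h7 (by norm_num) (by positivity)
      · have hα : n < α.length := by
          by_contra h
          exact hcase ⟨hn, by omega⟩
        have hα' : (n : ℝ) ≤ α.length := by exact_mod_cast hα.le
        have h7 : (2 : ℝ) ^ n ≤ 2 ^ (((n : ℝ) + α.length) / 2) := by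
          rw [← Real.rpow_natCast]
          exact Real.rpow_le_rpow_of_exponent_le (by norm_num) (by linarith)
        have h8 : (1 : ℝ) ≤ 2 ^ (e + 1 + n₀) := one_le_pow₀ (by norm_num)
        calc (2 : ℝ) ^ n = 1 * 2 ^ n := by ring
          _ ≤ _ := mul_le_mul h8 h7 (by positivity) (by positivity)
    have h9 : (2 : ℝ) ^ (e + 1 + n₀) * 2 ^ (((n : ℝ) + α.length) / 2) ≤
        2 ^ (e + 1 + n₀) * ((min α.length (n - α.length) : ℕ) + 1) *
          2 ^ (((n : ℝ) + α.length) / 2) := by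
      refine mul_le_mul_of_nonneg_right ?_ (by positivity)
      exact le_mul_of_one_le_right (by positivity) (by linarith)
    have h10 : (0 : ℝ) < 2 ^ n := by positivity
    linarith

end Pool.Agent.Helper31.RG
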