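import Pool.Agent.Helper31.RG.Basic
import Pool.Agent.Helper95.BG.Goals

/-!
# Range concatenation grammars: the statements of the parts of the proof

Overview. A grammar is turned into a finite local system (MATCH, WF, SU): the value of a tuple of
words is a function of the set of the data of its cuts, where the datum of a cut contains the first
letters of the pieces and the values of the tuples of smaller weight composed of the pieces. Numbers:
WRD, CODE. The value of the whole word is computed by a tree evaluation (LOC, PROD, TREE; the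
geometry is in ABS, GEO, LIFT). Linear space: LSA, LSE, PAR, LSG. Asymptotics: ASY. Letters: MAP.
Models for many parts are the files for Boolean grammars (the case `k = 1`) named below.
-/

namespace Pool.Agent.Helper31.RG

open Pool.Agent.Helper65.LinSpace Pool.Agent.Helper78 Pool.Agent.Helper78.Mpc
  Pool.Agent.Helper78.Xor Pool.Agent.Helper95.BG Finset Filter

/-! ## Geometry -/

/-- A pattern chooses for each of `k` components a piece `(l, i)` or nothing (`none`: the empty
word). It is injective if no piece is chosen twice. -/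
def Inj {k r : ℕ} (π : Fin k → Option (Fin k × Fin (r + 1))) : Prop :=
  ∀ i j a, π i = some a → π j = some a → i = j

/-- ABS: pieces of lengths `d l i`. The total weight of the chosen pieces is at most the total
weight of the ranges, and equality is only possible if in every range at most one piece has positive
length. PROOF: let `s` be the sum of the lengths of the chosen pieces and `t = ∑ l, ∑ i, d l i`; by
injectivity `s ≤ t`. The left side is `(k + 1) s + #{j | chosen length = 0} ≤ (k + 1) s + k`, the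
right side `R` is `(k + 1) t + #{l | ∑ i, d l i = 0} ≥ (k + 1) t`. If `s < t` then the left side is
smaller than the right side. If `s = t`, then every piece of positive length is chosen, so the
number of `j` with positive chosen length is the number `a` of the pieces `(l, i)` of positive
length, the left side is `(k + 1) t + k - a`, the right side is `(k + 1) t + k - a'` where `a'` is
the number of ranges of positive length, and `a' ≤ a` since each such range has a piece of positive
length; if `a = a'` then exactly one. -/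
def G_ABS : Prop := ∀ (k r : ℕ) (d : Fin k → Fin (r + 1) → ℕ)
  (π : Fin k → Option (Fin k × Fin (r + 1))), Inj π →
  ∑ j, wt k ((π j).elim 0 fun a => d a.1 a.2) ≤ ∑ l, wt k (∑ i, d l i) ∧
  (∑ l, wt k (∑ i, d l i) ≤ ∑ j, wt k ((π j).elim 0 fun a => d a.1 a.2) →
    ∀ l i, d l i ≠ 0 → d l i = ∑ i, d l i)

/-- GEO (assuming ABS): the potential does not increase, and it decreases if there is a far cut;
if there is no far cut, then each cut is in the block of one of the endpoints of its range. PROOF:
for `p = l (r + 1) + i` with `l < k`, `i ≤ r` put `A p = pt .. (lD k r p)`, `B p = pt .. (rD k r p)`.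
Then `A (l (r + 1)) = e_{2 l}`, `B (l (r + 1) + r) = e_{2 l + 1}`, `B (l (r + 1) + i) =
A (l (r + 1) + i + 1)` is the cut `l r + i` for `i < r`, and `A p ≤ B p` since `vldB = 0`. Put
`d l i = B p / b - A p / b`; the sum over `i` telescopes to `e_{2 l + 1} / b - e_{2 l} / b`. A
number `π` gives the pattern `j ↦ some (s / (r + 1), s % (r + 1))` if the digit `s` number `j` is
less than `k (r + 1)`, and `none` otherwise; `Inj` by `injB_eq_zero`; the ranges of `yN` are the
chosen pieces (`dig_yN`), so part 1 is ABS. Far cut `t`, `l = t / r`, `i = t % r`: the pieces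
`0, …, i` and the pieces `i + 1, …, r` of the range `l` both have positive total length in blocks,
so two pieces are positive and the equality case of ABS is impossible. Part 3:
`e_{2 l} ≤ c_t ≤ e_{2 l + 1}` by the chain of inequalities, and `farN = 0`. -/
def G_GEO : Prop := ∀ k r b N e c : ℕ, 0 < N → vldB k r N e c = 0 →
  (∀ π, injB k r π = 0 → pot k b N (yN k r N e c π) ≤ pot k b N e) ∧
  (∀ π, injB k r π = 0 → farN k r b N e c ≠ 0 → pot k b N (yN k r N e c π) < pot k b N e) ∧
  ∀ t < k * r, dig N e (2 * (t / r)) ≤ dig N c t ∧ dig N c t ≤ dig N e (2 * (t / r) + 1) ∧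
    (farN k r b N e c = 0 → dig N c t / b = dig N e (2 * (t / r)) / b ∨
      dig N c t / b = dig N e (2 * (t / r) + 1) / b)

/-- LIFT: codes in zones. PROOF: comparison of digits (`ext_dig`, `dig_yN`, `dig_lft`, `dig_cutN`,
`dig_tab`, `div_eq_block`, `mod_eq_block`). (a) case distinction in `lD`, `rD`. (b) both sides have
the digits `f (digit of x or xc)`, `f d = dig M Z (d / b) * b + d % b`, at the point `sel k r π t`,
which is `< 2 k + k r` by (a). (c) similarly; for `d = sel k r π t < 2 k` the slot is
`dig (2 k b) x d / b < 2 k` and the block `dig M Z` of it is the block of `e_d`; for `d ≥ 2 k` the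
slot is `d` and the block is `dig M C (d - 2 k)`. (d) slots are `< 2 k + k r`. (e) the digits `t *
b + ..` are `< 2 k b`. (f) take `C = tab M n (c_t / b)`, `o = tab b n (c_t % b)`. (g) let `xc` have
the digits `(d_t / b) * b + c_t % b`, where `d_t` is the digit number `2 (t / r)` or
`2 (t / r) + 1` of `x`; `e_d / b = dig M Z (dig (2 k b) x d / b)`. -/
def G_LIFT : Prop := ∀ k r b M : ℕ, 0 < k → 0 < b → 0 < M →
  (∀ π t, t < 2 * k → sel k r π t < 2 * k + k * r) ∧
  (∀ Z x xc π, yN k r (2 * k * b) x xc π < (2 * k * b) ^ (2 * k) ∧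
    lft k b M Z (2 * k) (yN k r (2 * k * b) x xc π) =
      yN k r (M * b) (lft k b M Z (2 * k) x) (lft k b M Z (k * r) xc) π) ∧
  (∀ Z C o x π, lft k b M (subZ k r M Z C (chi k r b x π)) (2 * k)
      (ent k r b (M * b) (lft k b M Z (2 * k) x) (cutN b M (k * r) C o) π) =
    yN k r (M * b) (lft k b M Z (2 * k) x) (cutN b M (k * r) C o) π) ∧
  (∀ x π, chi k r b x π < (2 * k + k * r) ^ (2 * k)) ∧
  (∀ N e c π, ent k r b N e c π < (2 * k * b) ^ (2 * k)) ∧
  (∀ n c, c < (M * b) ^ n → ∃ C < M ^ n, ∃ o < b ^ n, cutN b M n C o = c) ∧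
  ∀ Z x c, c < (M * b) ^ (k * r) →
    (∀ t < k * r, dig (M * b) c t / b = dig (M * b) (lft k b M Z (2 * k) x) (2 * (t / r)) / b ∨
      dig (M * b) c t / b = dig (M * b) (lft k b M Z (2 * k) x) (2 * (t / r) + 1) / b) →
    ∃ xc < (2 * k * b) ^ (k * r), lft k b M Z (k * r) xc = c

/-! ## The tree -/

/-- LOC (assuming GEO and LIFT): the computation inside a zone. Model: `Helper25/BG/Loc.lean`.
PROOF: let `W_s` be the value of `nrec` after `s` steps and `e = lft .. x`. Show by induction on `s`
that `W_s` and `ZT .. φ Z` have the same digit at `x < (2 k b) ^ (2 k)` as soon as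
`pot k 1 (M b) e < s`. The last `s` is larger than all `pot k 1 (M b) e`, since
`wt k n ≤ (k + 1) (M b) + 1` for `n < M b`. Step: if `φ < pot k b e` both are `0`; if
`pot k b e < φ` the digit of `Pv` is `V e`. If `pot k b e = φ`, use `V_eq` and `ext_bits`,
`dig_orB`, `dig_lor`: the bits of the disjunction over all cuts `c < (M b) ^ (k r)` are those of the
far cuts, which are in the digit of `ST` (LIFT (f), `dig_ST`), or of the near cuts, which are of the
form `lft .. xc` (GEO part 3 and LIFT (g)); a cut with `vldB ≠ 0` contributes `0`. For a near cut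
`nearN = trm .. V ..` by `trm_congr`: the digit of `W_s` at `yN k r (2 k b) x xc π` is the value `V`
of `yN k r (M b) e c π` (LIFT (b)), because its potential is at most `φ` (GEO part 1) and its weight
is less than that of `e`. -/
def G_LOC : Prop := ∀ (q k r b M : ℕ) (lt : ℕ → ℕ) (bt : ℕ → ℕ → ℕ) (ps : ℕ → ℕ) (φ Z : ℕ),
  0 < k → 0 < b → 0 < M → (∀ x y, bt x y < 2 ^ q) → (∀ x, ps x < 2 ^ q) → 0 < φ →
  classZ q k r b M lt bt ps φ Z
    (ST q k r b M lt bt (V q k r (M * b) lt bt ps) φ Z 0 (M ^ (k * r)))
    (ZT q k b M (V q k r (M * b) lt bt ps) (φ - 1) Z) =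
  ZT q k b M (V q k r (M * b) lt bt ps) φ Z

/-- PROD (assuming GEO and LIFT): the contribution of the far cuts in the blocks `C`. PROOF: compare
the entries; `orB q C (C + 1) f = f C` for `f C < 2 ^ q`. For a far cut `c` with `vldB = 0` and
`injB = 0` the potential of `y = yN .. π` is less than that of `e`, so at most `φ - 1` (GEO part 2),
and the entry `ent .. π` of the table `ZT .. (φ - 1) (subZ .. (chi .. π))` is `W y` (LIFT (c), (d),
(e), `dig_tab`, `dig_ZT`, `ZT_lt`); use `trm_congr`. -/
def G_PROD : Prop := ∀ (q k r b M : ℕ) (lt : ℕ → ℕ) (bt : ℕ → ℕ → ℕ) (W : ℕ → ℕ) (φ Z C : ℕ),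
  0 < k → 0 < b → 0 < M → (∀ x y, bt x y < 2 ^ q) → (∀ e, W e < 2 ^ q) → 0 < φ →
  prodZ q k r b M lt bt φ Z C (tab (2 ^ ((2 * k * b) ^ (2 * k) * q)) ((2 * k + k * r) ^ (2 * k))
    fun i => ZT q k b M W (φ - 1) (subZ k r M Z C i)) =
  ST q k r b M lt bt W φ Z C (C + 1)

/-- TREE (assuming LOC and PROD): the tree evaluation computes the value of the root. Model:
`Helper27/BG/Tree.lean`. PROOF: put `M = 2 ^ Λ`, `H = HH k r Λ = Λ k r + 2`. First the decoding of
`nd H MZ MC φ l Z C` for `l < H`, `Z < MZ`, `C < MC`. Then by induction on `h`: (a) for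
`φ H ≤ h` and `Z < M ^ (2 k)` the node `nd .. φ 0 Z 0` has the value `ZT .. φ Z` (for `φ = 0` this
is `0`, since `pot k b N e > 0` by `wt_pos`); (b) for `0 < φ`, `l ≤ Λ k r`, `C < 2 ^ (Λ k r - l)`
and `(φ - 1) H + l + 1 ≤ h` the node `nd .. φ (l + 1) Z C` has the value
`ST .. φ Z (C 2^l) ((C + 1) 2^l)`: for `l = 0` by PROD, for `l + 1` by `orB_split` and `sumZ`. The
node (a) for `φ > 0` uses its child `0`, which is (b) with `l = Λ k r`, `C = 0` (and
`M ^ (k r) = 2 ^ (Λ k r)`), its child `1`, which is (a) for `φ - 1`, and LOC. The root has the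
potential `(k + 1) (m / b) + k` and the zone `m / b * M`; the item `m * (M b)` has the code
`(b + m % b) * (2 k b)` in it and a smaller or equal potential. -/
def G_TREE : Prop := ∀ (q k r b Λ m : ℕ) (lt : ℕ → ℕ) (bt : ℕ → ℕ → ℕ) (ps : ℕ → ℕ),
  0 < k → 0 < b → (∀ x y, bt x y < 2 ^ q) → (∀ x, ps x < 2 ^ q) → m / b < 2 ^ Λ →
  eng q k r b Λ lt bt ps m = V q k r (2 ^ Λ * b) lt bt ps (m * (2 ^ Λ * b))

/-! ## Linear space -/

/-- The bounds which are needed for the evaluation in linear space. -/
structure Bds (q k r b Λ m C : ℕ) : Prop where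
  b0 : 0 < b
  q1 : 2 ^ q ≤ C
  l1 : 2 ^ Λ ≤ C
  n1 : (2 ^ Λ * b) ^ (2 * k) ≤ C
  n2 : (2 ^ Λ * b) ^ (k * r) ≤ C
  z1 : (2 * k * b) ^ (2 * k) ≤ C
  z2 : (2 * k * b) ^ (k * r) ≤ C
  i1 : (2 ^ (q + 2)) ^ (k * (r + 1)) ≤ C
  v1 : (k * (r + 1) + 1) ^ k ≤ C
  v2 : (2 ^ q) ^ ((k * (r + 1) + 1) ^ k) ≤ C
  d1 : (2 * k + k * r) ^ (2 * k) ≤ C
  p1 : pL ((2 * k + k * r) ^ (2 * k) * ((2 * k * b) ^ (2 * k) * q)) ^
    (((2 * k + k * r) ^ (2 * k) + 1) * ((2 * k * b) ^ (2 * k) * q)) ≤ C
  m1 : MM (pL ((2 * k + k * r) ^ (2 * k) * ((2 * k * b) ^ (2 * k) * q)))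
    ((2 * k + k * r) ^ (2 * k)) ^ (((k + 1) * (m / b) + k) * HH k r Λ) ≤ C

/-- LSA: the contribution of a cut is a linear-space function. PROOF: `unfold`, `LS.tab`,
`LS.sum_le`, `LS.pow_of_le`, `fun_prop`; `yN` with base `N` needs `N ^ (2 k) ≤ C`. The function `R`
may depend on further arguments since `α` is arbitrary. -/
def G_LSA : Prop := ∀ (α : Type) [Ctx α] (q k r N BT C e c : α → ℕ) (lt R : α → ℕ → ℕ),
  LS q → LS k → LS r → LS N → LS BT → LS C → LS e → LS c → LS1 lt → LS1 R →
  (∀ z i, lt z i < 2 ^ q z) → (∀ z i, R z i < 2 ^ q z) → (∀ z, 0 < N z) →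
  (∀ z, N z ^ (2 * k z) ≤ C z) → (∀ z, 2 ^ q z ≤ C z) →
  (∀ z, (2 ^ (q z + 2)) ^ (k z * (r z + 1)) ≤ C z) →
  (∀ z, (k z * (r z + 1) + 1) ^ k z ≤ C z) →
  (∀ z, (2 ^ q z) ^ ((k z * (r z + 1) + 1) ^ k z) ≤ C z) →
  LS (fun z => trm (q z) (k z) (r z) (N z) (lt z) (btR (q z) (k z) (r z) (BT z)) (R z) (e z) (c z))

/-- LSE (assuming LSA): `eng` is a linear-space function. Model: `Helper56/BG/Lse.lean`. PROOF:
`LS.gval` with `D = (2 k + k r) ^ (2 k)`, `L = (2 k b) ^ (2 k) q`, `p = pL (D L)` and
`G = HH k r Λ * M ^ (2 k) * M ^ (k r)`; the table of a zone is less than `2 ^ L ≤ C` (from `p1`).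
`classZ` is `LS.nrec`. -/
def G_LSE : Prop := ∀ (α : Type) [Ctx α] (q k r b Λ m BT PS C : α → ℕ) (lt : α → ℕ → ℕ),
  LS q → LS k → LS r → LS b → LS Λ → LS m → LS BT → LS PS → LS C → LS1 lt →
  (∀ z i, lt z i < 2 ^ q z) → (∀ z, Bds (q z) (k z) (r z) (b z) (Λ z) (m z) (C z)) →
  LS (fun z => eng (q z) (k z) (r z) (b z) (Λ z) (lt z) (btR (q z) (k z) (r z) (BT z))
    (psN (q z) (PS z)) (m z))

/-- PAR: the bounds for the parameters. Model: `Helper49/BG/PAR.lean`. PROOF: let
`n = Nat.log 2 x`, `ℓ = ll n`, `κ = kap n`, so `2 ^ (10 κ²) ≤ ℓ`, and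
`n < 2 ^ ℓ`. For `κ = 0` everything is trivial (`k = q = 0`, so `b = 1`, `L = 0`, `D = 1`).
For `κ ≥ 1`: `b ^ (2 k) ≤ nb n ≤ n / ℓ ^ 4` (or `b = 1` if `nb n = 0` or `k = 0`);
`(2 k) ^ (2 k) ≤ 2 ^ (2 κ²)`; `D ≤ 2 ^ (4 κ²)` (`2 κ + κ² ≤ 2 ^ (2 κ)`);
`(k (r + 1) + 1) ^ k ≤ 2 ^ (2 κ²)`; so `(D + 1) (2 k b) ^ (2 k) q ≤ 2 ^ (8 κ²) (nb n + 1) ≤ ℓ (nb n
+ 1)`, times `log₂ p ≤ ℓ + 5` is at most `20000 (n + 1)`; the height is at most
`((κ + 1) nb n + κ) (ℓ κ² + 2)` and `MM ≤ 2 ^ (3 ℓ + 10)`. Use `two_pow_le_CX`, `pL_le`, `ll_bd`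
and so on. All other bounds are far from sharp. -/
def G_PAR : Prop := ∀ x q k r m : ℕ, q ≤ kap (Nat.log 2 x) → k ≤ kap (Nat.log 2 x) →
  r ≤ kap (Nat.log 2 x) → m ≤ mS k (Nat.log 2 x) →
  Bds q k r (bS k (Nat.log 2 x)) (ll (Nat.log 2 x)) m (CX x)

/-- LSG (assuming LSE and PAR): the universal function is a linear-space function. Model:
`Helper85/BG/LSG.lean`. -/
def G_LSG : Prop := ∀ c : ℕ, LS (fun z : ℕ × ℕ × ℕ => UR c z.1 z.2.1 z.2.2)

/-! ## Parameters and letters -/

/-- ASY: asymptotics. Model: `Helper32/BG/Asy.lean`. For the third part: `bS k n ≥ (nb n) ^ (1 / (2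
k)) / 4` or so, and `nb n ≥ n ^ (1 - ε / 4)` for large `n`. -/
def G_ASY : Prop :=
  (∀ K : ℕ, ∀ᶠ n : ℕ in atTop, K ≤ kap n) ∧
  (∀ k n : ℕ, 0 < k → 0 < bS k n ∧ mS k n / bS k n < 2 ^ ll n ∧
    mS k n ≤ Pool.Agent.Helper95.BG.mS n) ∧
  ∀ (k : ℕ) (C ε : ℝ) (K : ℕ), 0 < k → 0 < ε → ∀ᶠ n : ℕ in atTop, ∀ u : ℕ, u ≤ K * (n + 1) →
    (n : ℝ) + C * ((u : ℝ) + 1) ^ (1 + 1 / (2 * (k : ℝ)) - ε) ≤ mS k n

/-- MAP: the length and the letters of the word `ι(w) f(w, y)`. Model and source of the second part:
`Helper90/BG/Map.lean` (`G_MAP` of `Helper95/BG/Goals.lean` may be used as a hypothesis; only the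
length with a smaller cut-off `cap` is new). -/
def G_MAPR : Prop := ∀ (T : Type) (f : List Bool → List Bool → List T) (ι : Bool → T)
  (c nT Bg MC n₀ : ℕ) (idx : T → ℕ) (q : ℕ) (τ : T → ℕ), Desc f c nT Bg MC n₀ idx →
  (∀ t, τ t < 2 ^ q) → ∃ LT IT : ℕ, ∀ w y : List Bool, n₀ ≤ w.length →
    y.length ≤ c * w.length → ∀ cap ≤ Pool.Agent.Helper95.BG.mS w.length,
    w.length + (f w y).length ≤ cap →
    mL nT Bg MC cap (num w) (num y) = (w.map ι ++ f w y).length ∧
    ∀ (i : ℕ) (h : i < (w.map ι ++ f w y).length),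
      ltL q nT Bg MC LT IT (LW w.length) (2 ^ (2 * ll w.length)) (num w) (num y) i =
        τ ((w.map ι ++ f w y)[i])

/-! ## Local systems -/

section

variable {T X : Type} {k r : ℕ}

/-- `D` cuts each component of `x` into `r + 1` pieces. -/
def Cut (x : Fin k → List T) (D : Fin k → Fin (r + 1) → List T) : Prop :=
  ∀ l, (List.ofFn (D l)).flatten = x l

/-- The tuple chosen by a pattern. -/
def subT (D : Fin k → Fin (r + 1) → List T) (π : Fin k → Option (Fin k × Fin (r + 1))) :
    Fin k → List T := fun j => (π j).elim [] fun a => D a.1 a.2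

/-- The weight of a tuple. -/
def meas (x : Fin k → List T) : ℕ := ∑ l, wt k (x l).length

/-- The lengths (cut off at `2`) and the first letters of the pieces. -/
def infD (D : Fin k → Fin (r + 1) → List T) : Fin k → Fin (r + 1) → ℕ × Option T :=
  fun l i => (min (D l i).length 2, (D l i).head?)

open Classical in
/-- The values of the tuples which are chosen by injective patterns and are of smaller weight than
`x`. -/
noncomputable def val (μ : (Fin k → List T) → X) (x : Fin k → List T)
    (D : Fin k → Fin (r + 1) → List T) : (Fin k → Option (Fin k × Fin (r + 1))) → Option X :=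
  fun π => if Inj π ∧ meas (subT D π) < meas x then some (μ (subT D π)) else none

/-- The set of the data of all cuts of `x` into `r + 1` pieces. -/
def dat (r : ℕ) (μ : (Fin k → List T) → X) (x : Fin k → List T) :
    Set ((Fin k → Fin (r + 1) → ℕ × Option T) ×
      ((Fin k → Option (Fin k × Fin (r + 1))) → Option X)) :=
  {d | ∃ D : Fin k → Fin (r + 1) → List T, Cut x D ∧ d = (infD D, val μ x D)}

end

/-- `K` is described by a finite local system of arity `k` with `r` cuts. -/
def LocalSys {T : Type} (k r : ℕ) (K : Language T) : Prop :=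
  ∃ (X : Type) (_ : Finite X) (μ : (Fin k → List T) → X)
    (Ψ : Set ((Fin k → Fin (r + 1) → ℕ × Option T) ×
      ((Fin k → Option (Fin k × Fin (r + 1))) → Option X)) → X) (F : Set X),
    (∀ x, μ x = Ψ (dat r μ x)) ∧
    ∀ w : List T, w ∈ K ↔ μ (fun i => if i.val = 0 then w else []) ∈ F

/-! ### Local systems and numbers -/

section

variable {T : Type}

/-- The factor `w_a … w_{z-1}`. -/
def sl (w : List T) (a z : ℕ) : List T := (w.drop a).take (z - a)

/-- The tuple of the ranges of the item `e`. -/
def wd (w : List T) (k N e : ℕ) : Fin k → List T :=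
  fun l => sl w (dig N e (2 * l.val)) (dig N e (2 * l.val + 1))

/-- The pieces of the item `e` for the cut `c`. -/
def pcs (w : List T) (k r N e c : ℕ) : Fin k → Fin (r + 1) → List T :=
  fun l i => sl w (pt k N e c (lD k r (l.val * (r + 1) + i.val)))
    (pt k N e c (rD k r (l.val * (r + 1) + i.val)))

open Classical in
/-- The pattern with the number `π`. -/
noncomputable def patt (k r π : ℕ) : Fin k → Option (Fin k × Fin (r + 1)) := fun j =>
  if h : dig (k * (r + 1) + 1) π j.val / (r + 1) < k then
    some (⟨dig (k * (r + 1) + 1) π j.val / (r + 1), h⟩,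
      ⟨dig (k * (r + 1) + 1) π j.val % (r + 1), Nat.mod_lt _ (Nat.succ_pos r)⟩)
  else none

/-- The item `e` consists of ranges of a word of length `m`. -/
def Ok (k N m e : ℕ) : Prop :=
  ∀ l < k, dig N e (2 * l) ≤ dig N e (2 * l + 1) ∧ dig N e (2 * l + 1) ≤ m

end

/-- WRD: cuts of items and cuts of tuples of words. PROOF: `sl w a z` has length `z - a` for
`a ≤ z ≤ |w|`, and `sl w a z ++ sl w z u = sl w a u` for `a ≤ z ≤ u`. (1) is clear
(`dig (k (r + 1) + 1) π j / (r + 1) < k` iff the digit is less than `k (r + 1)`); (2): take the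
digits `s.1 * (r + 1) + s.2` or `k (r + 1)`. (3) for `vldB = 0` the points of the range `l` are in
increasing order from `e_{2 l}` to `e_{2 l + 1}`. (4) take the cut with the points
`e_{2 l} + |D l 0| + … + |D l i|`. (5) `dig_yN`; for a piece the endpoints of `yN` are those of the
piece, and for `none` both are the point `0`. -/
def G_WRD : Prop := ∀ (T : Type) (w : List T) (k r N : ℕ), 0 < k → w.length < N →
  (∀ π, Inj (patt k r π) ↔ injB k r π = 0) ∧
  (∀ π : Fin k → Option (Fin k × Fin (r + 1)), ∃ π' < (k * (r + 1) + 1) ^ k, patt k r π' = π) ∧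
  ∀ e, Ok k N w.length e →
    meas (wd w k N e) = pot k 1 N e ∧
    (∀ c, vldB k r N e c = 0 → Cut (wd w k N e) (pcs w k r N e c) ∧
      (∀ π, Ok k N w.length (yN k r N e c π) ∧
        wd w k N (yN k r N e c π) = subT (pcs w k r N e c) (patt k r π)) ∧
      ∀ (l : Fin k) (i : Fin (r + 1)), pt k N e c (lD k r (l.val * (r + 1) + i.val)) ≤
        pt k N e c (rD k r (l.val * (r + 1) + i.val)) ∧
        pt k N e c (rD k r (l.val * (r + 1) + i.val)) ≤ w.length) ∧
    ∀ D : Fin k → Fin (r + 1) → List T, Cut (wd w k N e) D →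
      ∃ c < N ^ (k * r), vldB k r N e c = 0 ∧ pcs w k r N e c = D

/-- CODE (assuming WRD): a local system is described by numbers. Model: `Helper15/BG/CODE.lean`.
PROOF: let `cX : X → ℕ` be injective with values `< nX` (`X` is finite). The data which occur are
pairs `δ = (inf, vec)` of a function `inf` with values `(0, none)` or `(j, some t)`, `j = 1, 2`, and
a function `vec`; there are finitely many, number them by `nδ < Nd`. Choose `q` with `Nd ≤ q`,
`nX + 1 < 2 ^ q`, `|T| < 2 ^ q`, let `τ t` be the number of `t`. A datum has the codes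
`X δ < (2 ^ (q + 2)) ^ (k (r + 1))` (digit number `l (r + 1) + i`: `0` or `j * 2 ^ q + τ t`) and
`Y δ < (2 ^ q) ^ ((k (r + 1) + 1) ^ k)` (digit number `π`: `0` for `none` and `cX x + 1` for
`some x`, at `patt k r π`); `(X, Y)` is injective by WRD (2). Let `BT` be the table (base `2 ^ q`)
with the entry `2 ^ nδ` at the place `X δ * (2 ^ q) ^ ((k (r + 1) + 1) ^ k) + Y δ` and `0` at the
other places, `PS` the table with the entry `cX (Ψ {δ | bit nδ of x is 1}) + 1` at the place `x`,
and `AC` the number with the bits `cX x + 1`, `x ∈ F`. Show by strong induction on `pot k 1 N e`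
that `V .. e = cX (μ (wd w k N e)) + 1` for `Ok k N |w| e`: by `V_eq`, `dig_orB` the bits of the
disjunction are the numbers of the data in `dat r μ (wd w k N e)`: for `vldB = 0` the codes of the
datum of `pcs w k r N e c` are `infN` and `vecN` (`dig_vecN`, `dig_tab`, WRD, induction); each cut
`D` is a `pcs` by WRD (4). Finally `e = |w| * N`, for which `wd w k N e = fun i => if i.val = 0 then
w else []`. -/
def G_CODE : Prop := ∀ (T : Type) [Finite T] (k r : ℕ) (K : Language T), 0 < k →
  LocalSys k r K → ∃ (q BT PS AC : ℕ) (τ : T → ℕ), (∀ t, τ t < 2 ^ q) ∧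
    ∀ (w : List T) (N : ℕ) (lt : ℕ → ℕ), w.length < N →
      (∀ (i : ℕ) (h : i < w.length), lt i = τ w[i]) →
      (w ∈ K ↔ dig 2 AC (V q k r N lt (btR q k r BT) (psN q PS) (w.length * N)) ≠ 0)

/-! ### Grammars and local systems -/

section

variable {T : Type} {k : ℕ}

/-- The tuple which consists of the components of `x` with the numbers in the list `ρ`; `none`
stands for the empty word. -/
def app (x : Fin k → List T) (ρ : List (Option (Fin k))) : List (List T) :=
  ρ.map fun o => o.elim [] x

/-- An arrangement: at most `k` entries, and no number occurs twice. -/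
def Arr (ρ : List (Option (Fin k))) : Prop := ρ.length ≤ k ∧ (ρ.filterMap id).Nodup

/-- The tuple with exactly `k` components, filled up with empty words. -/
def pad (k : ℕ) (y : List (List T)) : Fin k → List T := fun i => y[i.val]?.getD []

end

/-- MATCH (assuming ABS): instances of clauses are transferred from arrangements of `x` to those of
`x'` if the data of `x` are data of `x'`. PROOF: let `ρ` and `ν` be given, so `lhs[j]` becomes
`(app x ρ)[j]`. If `ρ[j] = some l`, let `D l i` be the value of the symbol number `i` of `lhs[j]`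
(`[a]` for a letter, `ν v` for a variable, `[]` for `i ≥ |lhs[j]|`), and for the other `l` let
`D l 0 = x l`, `D l i = []`. This is a cut of `x`; its datum is one of `x'`, so there is a cut `D'`
of `x'` with `infD D' = infD D` and `val μ x' D' = val μ x D`. For a variable `v` which is the
symbol number `i` of `lhs[j]` (unique, since the variables of the left-hand side are different) let
`ν' v = D' l i` if `ρ[j] = some l`, and `[]` if `ρ[j] = none` (in this case `ν v = []`); for the
letters `infD` shows `D' l i = [a]`, and `D' l i = []` for `i ≥ |lhs[j]|`, so the left-hand side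
becomes `app x' ρ`. For a literal with the variables `p.2` let `π t = some (l, i)` for the place of
`p.2[t]` if its component is some `l`, and `none` otherwise; `π` is injective,
`subT D π = pad (p.2.map ν)`, `subT D' π = pad (p.2.map ν')`. If `meas (subT D π) < meas x`, then
`val` at `π` gives the second alternative. Otherwise `meas (subT D' π) < meas x'` is wrong, too, and
ABS (for `d l i = |D l i|`) shows that every nonempty chosen piece `D l i` is all of `x l` and the
only nonempty piece of `x l`; the same for `D'`; put `ρ'[t] = some l` if `π t = some (l, i)` with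
`D l i ≠ []` (iff `D' l i ≠ []`), and `none` otherwise. -/
def G_MATCH : Prop := ∀ (T N X : Type) (k r : ℕ) (c : Clause T N) (μ : (Fin k → List T) → X)
  (x x' : Fin k → List T), c.Linear k → (∀ u ∈ c.lhs, u.length ≤ r) → dat r μ x ⊆ dat r μ x' →
  ∀ ρ, Arr ρ → ∀ ν : ℕ → List T, c.lhs.map (subst ν) = app x ρ →
    ∃ ν' : ℕ → List T, c.lhs.map (subst ν') = app x' ρ ∧ ∀ p ∈ c.pos ++ c.neg,
      (∃ ρ', Arr ρ' ∧ p.2.map ν = app x ρ' ∧ p.2.map ν' = app x' ρ') ∨
      (meas (pad k (p.2.map ν)) < meas x ∧ meas (pad k (p.2.map ν')) < meas x' ∧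
        μ (pad k (p.2.map ν)) = μ (pad k (p.2.map ν')))

/-- WF (assuming MATCH): grammars in the well-founded semantics. PROOF: let `W = wellFounded`,
`V = least W`; `least V = W` (Knaster-Tarski). Let `r` be a bound for the lengths of the words on
the left-hand sides and `μ x` the set of all `(a, A, β)`, `a ≤ k`, such that the tuple
`(List.ofFn x).take a` is in `W A` (`β = false`) or in `V A` (`β = true`). `Ψ` exists by choice if
`dat r μ x = dat r μ x'` implies `μ x = μ x'`; for this it suffices to show that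
`app x ρ ∈ W A ↔ app x' ρ ∈ W A` for all arrangements `ρ`, and the same for `V` (use
`ρ = [some 0, …, some (a - 1)]`). Note `y = (List.ofFn (pad k y)).take y.length` for
`y.length ≤ k`, so in the second alternative of MATCH the two tuples are in the same `W A`, `V A`.
Put `I A = {z ∈ W A | ∀ ρ, Arr ρ → z = app x ρ → app x' ρ ∈ W A}` and `J = least I ≥ V`.
(i) `V ≤ U` for `U A = {z ∈ V A | ∀ ρ, Arr ρ → z = app x' ρ → app x ρ ∈ J A}`: show
`rhs W U ≤ U`. Let `z ∈ rhs W U A`, so `z ∈ rhs W V A ≤ V A`, and let `z = app x' ρ`; MATCH (from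
`x'` to `x`) gives an instance for `app x ρ`; it is in `rhs I J A ≤ J A`: a positive literal is in
`U`, so by the first alternative of MATCH its partner is in `J` by definition of `U`, and by the
second in `V ≤ J`; a negative literal is not in `W`, so its partner is not in `I` (first
alternative: by definition of `I`; second: not in `W ≥ I`). (ii) `least J ≤ I`: show
`rhs J I ≤ I`. Let `z ∈ rhs J I A`; it is in `rhs V W A ≤ W A`, and if `z = app x ρ` then MATCH
gives an instance for `app x' ρ`; it is in `rhs V W A`: a positive literal is in `I`, its partner is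
in `W`; a negative literal is not in `J`, its partner is not in `V` (first alternative: otherwise
the literal would be in `J` by (i); second: `V ≤ J`). Hence `W ≤ I`, so `I = W`, `J = V`; this and
(i) are the claim in one direction, and the other follows by symmetry. The language:
`w ∈ K ↔ (List.ofFn x).take 1 ∈ W start` for the tuple `x = (w, [], …)`. -/
def G_WF : Prop := ∀ (T : Type) (G : Grammar T) (k : ℕ), 0 < k → G.Linear k →
  ∃ r, LocalSys k r {w | [w] ∈ G.wellFounded G.start}

/-- SU (assuming ABS and MATCH): grammars in the semantics of the strongly unique solution. PROOF: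
let `S` be the solution, `r ≥ 1` a bound for the lengths of the words on the left-hand sides and let
`μ x` consist of the set of all `(a, A)`, `a ≤ k`, with `(List.ofFn x).take a ∈ S A`, and the set
of all `(i, j)` with `x i = x j`. Let `dat r μ x = dat r μ x'`. Equalities: `x i = x j` iff
both are empty, or there is a cut with `|D i 0| = |D j 0| = 1`, the same first letter, `D i l`,
`D j l` empty for `l ≥ 2`, and `D i 1 = D j 1`; the latter is the bit `(i, j)` of the value of the
tuple with the components `D i 1`, `D j 1` at `i`, `j` (of smaller weight). So `μ` has the same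
equalities for `x` and `x'`, and `x i = [] ↔ x' i = []` (`infD`). Hence `app x ρ = app x ρ'`
implies `app x' ρ = app x' ρ'`. If `meas (pad (app x ρ)) < meas x` then `app x ρ ∈ S A ↔
app x' ρ ∈ S A`, by the cut with `D l 0 = x l` (a cut with the same `infD` has the same form).
Let `O` be the set of all `app x ρ`, `Arr ρ`, and put `y ∈ S' A` iff `∃ ρ, Arr ρ ∧ y = app x ρ ∧
app x' ρ ∈ S A` for `y ∈ O`, and `y ∈ S' A` iff `y ∈ S A` otherwise. Let `M` be the least set
containing `O` which is closed (`Grammar.Closed`). It is finite: the tuples in `M` have at most `k`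
components, all of them factors of components of `x`. ABS shows: if `y = c.lhs.map (subst ν)` and
`z = p.2.map ν` for a literal `p` of `c`, then `meas (pad z) ≤ meas (pad y)`, and if equality holds
and `y ∈ O` then `z ∈ O`; so `meas (pad y) ≤ meas x` for `y ∈ M`, and if equality holds then
`y ∈ O`. `S'` solves the system modulo `M`: for `y ∈ M \ O` the literals `z` of instances for `y`
are not in `O` or have `meas (pad z) < meas x`, so `z ∈ S' B ↔ z ∈ S B`; for `y = app x ρ` use
MATCH in both directions. Therefore `S' = S` on `M`, so `app x ρ ∈ S A ↔ app x' ρ ∈ S A`. -/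
def G_SU : Prop := ∀ (T : Type) (G : Grammar T) (k : ℕ) (K : Language T), 0 < k → G.Linear k →
  G.Generates K → ∃ r, LocalSys k r K

/-- COD (assuming all of the above): the universal function is correct. Model:
`Helper54/BG/Cod.lean`. -/
def G_COD : Prop := ∀ (T : Type) [Finite T] (G : Grammar T) (k : ℕ) (K : Language T), 0 < k →
  G.Linear k → (G.Generates K ∨ K = {w | [w] ∈ G.wellFounded G.start}) → ∀ (ι : Bool → T)
  (f : List Bool → List Bool → List T) (C ε : ℝ) (c : ℕ), 0 < ε →
  Computable (fun n => C * ((n : ℝ) + 1) ^ (1 - ε)) f →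
  (∀ w y, ((f w y).length : ℝ) ≤
    C * ((w.length : ℝ) + y.length + 1) ^ (1 + 1 / (2 * (k : ℝ)) - ε)) →
  ∃ e n₀ : ℕ, ∀ w α : List Bool, n₀ ≤ w.length → α.length ≤ w.length →
    (UR c e (num α) (num w) ≠ 0 ↔
      ∃ v : List Bool, v.length ≤ c * w.length ∧ w.map ι ++ f w (α ++ v) ∈ K)

end Pool.Agent.Helper31.RG
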