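import Pool.Agent.Helper31.RG.MainOf
import Pool.Agent.Helper96.RG.LSE

/-!
# Range concatenation grammars: the main theorem
-/

namespace Pool.Agent.Helper31.RG

open Pool.Agent.Helper65.LinSpace Pool.Agent.Helper78.Mpc Pool.Agent.Helper95.BG

theorem main (c : ℕ) :
    ∃ (L : Set (List Bool)) (s : ℕ → List Bool), DLINSPACE L ∧ (∀ n, (s n).length = n) ∧
      (∀ w, w ∈ L ↔ Odd ((List.zipWith and (s w.length) w).count true)) ∧
      ∀ (T : Type) [Finite T] (k : ℕ) (K : Language T), 0 < k → Generated k K →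
        ∀ (ι : Bool → T) (f : List Bool → List Bool → List T) (C ε : ℝ), 0 < ε →
        Computable (fun n => C * ((n : ℝ) + 1) ^ (1 - ε)) f →
        (∀ w y, ((f w y).length : ℝ) ≤
          C * ((w.length : ℝ) + y.length + 1) ^ (1 + 1 / (2 * (k : ℝ)) - ε)) →
        ∃ c' : ℝ, ∀ (n : ℕ) (α : List Bool),
          |({w : List Bool | w.length = n ∧ (w ∈ L ↔ ∃ v : List Bool, v.length ≤ c * n ∧
            w.map ι ++ f w (α ++ v) ∈ K)}.ncard : ℝ) - 2 ^ n / 2| ≤
            c' * ((min α.length (n - α.length) : ℕ) + 1) * 2 ^ (((n : ℝ) + α.length) / 2) :=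
  main_lse Helper96.RG.PkLSE.thm c

end Pool.Agent.Helper31.RG
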