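import Pool.Agent.Helper31.RG.Col
import Pool.Agent.Helper5.RG.LIFT
import Pool.Agent.Helper8.RG.ASY
import Pool.Agent.Helper22.RG.GEO
import Pool.Agent.Helper25.RG.PAR
import Pool.Agent.Helper32.RG.LSG
import Pool.Agent.Helper33.RG.WF
import Pool.Agent.Helper49.RG.PROD
import Pool.Agent.Helper56.RG.SU
import Pool.Agent.Helper59.RG.WRD
import Pool.Agent.Helper65.RG.ABS
import Pool.Agent.Helper67.RG.LOC
import Pool.Agent.Helper69.RG.CODE
import Pool.Agent.Helper77.RG.LSA
import Pool.Agent.Helper85.RG.MAPR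
import Pool.Agent.Helper89.RG.MATCH
import Pool.Agent.Helper90.RG.TREE
import Pool.Agent.Helper31.BG.UNI
import Pool.Agent.Helper32.BG.Asy
import Pool.Agent.Helper60.BG.WF
import Pool.Agent.Helper7.BG.Str
import Pool.Agent.Helper81.BG.SU
import Pool.Agent.Helper69.BG.LET

/-!
# Range concatenation grammars: the main theorem from the last part
-/

namespace Pool.Agent.Helper31.RG

open Pool.Agent.Helper65.LinSpace Pool.Agent.Helper78.Mpc Pool.Agent.Helper95.BG

theorem main_lse (lse : Pool.Agent.Helper31.RG.G_LSE) (c : ℕ) :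
    ∃ (L : Set (List Bool)) (s : ℕ → List Bool), DLINSPACE L ∧ (∀ n, (s n).length = n) ∧
      (∀ w, w ∈ L ↔ Odd ((List.zipWith and (s w.length) w).count true)) ∧
      ∀ (T : Type) [Finite T] (k : ℕ) (K : Language T), 0 < k → Generated k K →
        ∀ (ι : Bool → T) (f : List Bool → List Bool → List T) (C ε : ℝ), 0 < ε →
        Computable (fun n => C * ((n : ℝ) + 1) ^ (1 - ε)) f →
        (∀ w y, ((f w y).length : ℝ) ≤
          C * ((w.length : ℝ) + y.length + 1) ^ (1 + 1 / (2 * (k : ℝ)) - ε)) →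
        ∃ c' : ℝ, ∀ (n : ℕ) (α : List Bool),
          |({w : List Bool | w.length = n ∧ (w ∈ L ↔ ∃ v : List Bool, v.length ≤ c * n ∧
            w.map ι ++ f w (α ++ v) ∈ K)}.ncard : ℝ) - 2 ^ n / 2| ≤
            c' * ((min α.length (n - α.length) : ℕ) + 1) * 2 ^ (((n : ℝ) + α.length) / 2) :=
  have abs := Helper65.RG.PkABS.thm
  have lift := Helper5.RG.PkLIFT.thm
  have geo := Helper22.RG.PkGEO.thm abs
  have mat := Helper89.RG.PkMATCH.thm abs
  have tree := Helper90.RG.PkTREE.thm (Helper67.RG.PkLOC.thm geo lift)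
    (Helper49.RG.PkPROD.thm geo lift)
  main_of c (Helper32.RG.PkLSG.thm lse Helper25.RG.PkPAR.thm)
    (col_of tree (Helper69.BG.PkLET.thm Helper31.BG.PkUNI.thm Helper32.BG.PkASY.thm)
      Helper85.RG.PkMAPR.thm (Helper69.RG.PkCODE.thm Helper59.RG.PkWRD.thm) Helper8.RG.PkASY.thm)
    (Helper33.RG.PkWF.thm mat) (Helper56.RG.PkSU.thm abs mat)
    (Helper60.BG.PkWF.thm Helper7.BG.PkSTR.thm) (Helper81.BG.PkSU.thm Helper7.BG.PkSTR.thm)

end Pool.Agent.Helper31.RG
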